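import Pool.Agent.LD.I.GInvA
import Pool.Agent.QD.In.GGX

/-!
# LD/I-GInvB: `GGX (2 - s)` is invertible on the lines `Re s = n + 1/2`, `n` large

PLAN.  `GGX S D a x (2 - s) = wx * A^(s-1) * (gam1 s * (gam1 (2-s))⁻¹)^(2d) * (plx (2-s) * (plx s)⁻¹) *
∏ (FF (s) * (FF (2-s))⁻¹)` (definition in QD/In/Def.lean; `2 - (2 - s) = s`).  `wx ≠ 0`, `‖wx‖ = 1` (`wx_cases`);
`‖A^(s-1)‖` is constant on the line; gamma quotient: `gam1_inv_line`; `plx`: `pl_list` (QD/In/Pl.lean: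
`D.pl F s = plL L s`, a finite product of `1 - α q^(-s)`, `q` prime, `‖α‖ ≤ √q`): `plx s` is bounded on vertical
lines (`plL_bdd`) and `‖1 - α q^(-(2-s))‖ ≥ 1` for `Re s` large if `α ≠ 0` (`‖α‖ q^(Re s - 2) ≥ 2`), `= 1` if `α = 0`
(see the proof of `plx_ne_left` in QD/In/GGX.lean); so `plx s * (plx (2-s))⁻¹` is bounded;
`FF (2 - s) * (FF s)⁻¹`: `(FF a q u s)⁻¹` is the polynomial `(1 - a u q^(-s) + ..)` (HWR/Defs.lean), at `s`
bounded by `16`, and at `2 - s`: `FF a q u (2-s)` = inverse of the polynomial in `q^(s-2)`, whose modulus is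
`≥ 1` for `Re s` large when `u ≠ 0`; for `u = 0` look at the definition of `FF` (the factors are `efac`-like
with `q^(1-2s)` terms: roots of `1 - a X + q X²` have modulus `q^(-1/2)`, so for `|X| = q^(Re s - 2) ≥ 1` the
modulus of `1 - a X + q X²` is `≥ (√q |X| - 1)² ≥ 1`).  Use `ff_ne`, `ffi_ne` where possible.
-/

namespace Pool.Agent.LD

open NumberField IsDedekindDomain Pool.Agent.HWR Pool.Agent.QD Pool.Agent.QD.In

/-- nonzero with bounded inverse on a vertical line -/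
private def IB (σ : ℝ) (f : ℂ → ℂ) : Prop :=
  ∃ C : ℝ, 0 ≤ C ∧ ∀ s : ℂ, s.re = σ → f s ≠ 0 ∧ ‖(f s)⁻¹‖ ≤ C

private theorem ib_mul {σ : ℝ} {f g : ℂ → ℂ} (hf : IB σ f) (hg : IB σ g) :
    IB σ fun s => f s * g s := by
  obtain ⟨C, hC, h1⟩ := hf
  obtain ⟨C', hC', h2⟩ := hg
  refine ⟨C * C', mul_nonneg hC hC', fun s hs => ?_⟩
  obtain ⟨h3, h4⟩ := h1 s hs
  obtain ⟨h5, h6⟩ := h2 s hs
  refine ⟨mul_ne_zero h3 h5, ?_⟩
  rw [mul_inv, norm_mul]
  exact mul_le_mul h4 h6 (norm_nonneg _) hC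

private theorem ib_pow {σ : ℝ} {f : ℂ → ℂ} (hf : IB σ f) (m : ℕ) : IB σ fun s => f s ^ m := by
  obtain ⟨C, hC, h1⟩ := hf
  refine ⟨C ^ m, pow_nonneg hC m, fun s hs => ?_⟩
  obtain ⟨h3, h4⟩ := h1 s hs
  refine ⟨pow_ne_zero m h3, ?_⟩
  rw [← inv_pow, norm_pow]
  exact pow_le_pow_left₀ (norm_nonneg _) h4 m

private theorem ib_prod {ι : Type} {σ : ℝ} (R : Finset ι) {f : ι → ℂ → ℂ}
    (h : ∀ i ∈ R, IB σ (f i)) : IB σ fun s => ∏ i ∈ R, f i s := by
  classical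
  induction R using Finset.induction_on with
  | empty =>
    refine ⟨1, zero_le_one, fun s _ => ?_⟩
    simp only
    rw [Finset.prod_empty]
    exact ⟨one_ne_zero, by rw [inv_one, norm_one]⟩
  | insert i R hi ih =>
    have h1 := ib_mul (h i (Finset.mem_insert_self i R))
      (ih fun j hj => h j (Finset.mem_insert_of_mem hj))
    have h2 : (fun s => ∏ j ∈ insert i R, f j s) = fun s => f i s * ∏ j ∈ R, f j s := by
      funext s
      rw [Finset.prod_insert hi]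
    rw [h2]
    exact h1

/-- a product of a function bounded below and the inverse of a bounded function -/
private theorem ib_quot {σ : ℝ} {f g : ℂ → ℂ} {c C : ℝ} (hc : 0 < c)
    (hf : ∀ s : ℂ, s.re = σ → c ≤ ‖f s‖) (hg0 : ∀ s : ℂ, s.re = σ → g s ≠ 0)
    (hg : ∀ s : ℂ, s.re = σ → ‖g s‖ ≤ C) : IB σ fun s => f s * (g s)⁻¹ := by
  refine ⟨c⁻¹ * |C|, by positivity, fun s hs => ?_⟩
  have h1 := hf s hs
  have h2 : f s ≠ 0 := by
    intro h
    rw [h, norm_zero] at h1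
    linarith
  refine ⟨mul_ne_zero h2 (inv_ne_zero (hg0 s hs)), ?_⟩
  rw [mul_inv, inv_inv, norm_mul, norm_inv]
  exact mul_le_mul (inv_anti₀ hc h1) ((hg s hs).trans (le_abs_self C)) (norm_nonneg _)
    (by positivity)

/-- lower bound of the local polynomials far to the left -/
private theorem efi_one_le {a : ℕ → ℝ} (ha : ∀ q : ℕ, |a q| ≤ 2 * Real.sqrt q) {q : ℕ}
    (hq : 101 ≤ q) {s : ℂ} (hs : s.re ≤ 0) : 1 ≤ ‖efi a q s‖ := by
  have hq1 : (101 : ℝ) ≤ q := by exact_mod_cast hq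
  have hq0 : (0 : ℝ) < q := by linarith
  set Y : ℝ := (q : ℝ) ^ (1 / 2 - s.re) with hY
  have hY10 : 10 ≤ Y := by
    have h1 : Real.sqrt q ≤ Y := by
      rw [Real.sqrt_eq_rpow, hY]
      exact Real.rpow_le_rpow_of_exponent_le (by linarith) (by linarith)
    have h2 : (10 : ℝ) ≤ Real.sqrt q := by
      apply Real.le_sqrt_of_sq_le
      linarith
    linarith
  have n1 : ‖(q : ℂ) ^ (1 - 2 * s)‖ = Y ^ 2 := by
    rw [Complex.norm_natCast_cpow_of_pos (by omega), hY, ← Real.rpow_natCast, ← Real.rpow_mul hq0.le]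
    congr 1
    simp
    ring
  have n2 : ‖(a q : ℂ) * (q : ℂ) ^ (-s)‖ ≤ 2 * Y := by
    rw [norm_mul, Complex.norm_natCast_cpow_of_pos (by omega), Complex.norm_real,
      Real.norm_eq_abs, Complex.neg_re]
    calc |a q| * (q : ℝ) ^ (-s.re) ≤ (2 * Real.sqrt q) * (q : ℝ) ^ (-s.re) := by
          gcongr
          exact ha q
      _ = 2 * Y := by
          rw [hY, Real.sqrt_eq_rpow, mul_assoc, ← Real.rpow_add hq0]
          congr 2
  have h1 : (q : ℂ) ^ (1 - 2 * s) = efi a q s + (a q : ℂ) * (q : ℂ) ^ (-s) - 1 := by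
    unfold efi
    ring
  have h2 : Y ^ 2 ≤ ‖efi a q s‖ + 2 * Y + 1 := by
    rw [← n1, h1]
    refine (norm_sub_le _ _).trans ?_
    rw [norm_one]
    have h3 := norm_add_le (efi a q s) ((a q : ℂ) * (q : ℂ) ^ (-s))
    linarith
  nlinarith

private theorem ff_le_one {a : ℕ → ℝ} (ha : ∀ q : ℕ, |a q| ≤ 2 * Real.sqrt q) {q : ℕ}
    (hq : 101 ≤ q) (u : ℂ) {s : ℂ} (hs : s.re ≤ 0) : 1 ≤ ‖(FF a q u s)⁻¹‖ := by
  rw [ffi_eq]
  have hq2 : 101 ≤ q ^ 2 := by nlinarith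
  split_ifs
  · rw [norm_pow]
    exact one_le_pow₀ (efi_one_le ha hq hs)
  · exact efi_one_le ha hq2 hs
  · exact efi_one_le ha hq hs

private theorem plL_one_le (L : List (ℂ × ℕ)) (hL : ∀ x ∈ L, x.2.Prime) :
    ∃ b : ℝ, ∀ s : ℂ, s.re < b → 1 ≤ ‖plL L s‖ := by
  induction L with
  | nil => exact ⟨0, fun s _ => by rw [plL, List.map_nil, List.prod_nil, norm_one]⟩
  | cons x L ih =>
    obtain ⟨b, hb⟩ := ih fun y hy => hL y (List.mem_cons_of_mem _ hy)
    have hx := hL x List.mem_cons_self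
    have hx1 : (1 : ℝ) < x.2 := by exact_mod_cast hx.one_lt
    by_cases h0 : x.1 = 0
    · refine ⟨b, fun s hs => ?_⟩
      rw [plL, List.map_cons, List.prod_cons, h0, zero_mul, sub_zero, one_mul]
      exact hb s hs
    · have hx0 : 0 < ‖x.1‖ := norm_pos_iff.2 h0
      refine ⟨min b ((Real.log ‖x.1‖ - Real.log 2) / Real.log x.2), fun s hs => ?_⟩
      have hs1 := lt_of_lt_of_le hs (min_le_left _ _)
      have hs2 := lt_of_lt_of_le hs (min_le_right _ _)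
      rw [plL, List.map_cons, List.prod_cons, norm_mul]
      have h1 : 1 ≤ ‖1 - x.1 * (x.2 : ℂ) ^ (-s)‖ := by
        have hp : 0 < (x.2 : ℝ) ^ (-s.re) := Real.rpow_pos_of_pos (by linarith) _
        have hl : 0 < Real.log x.2 := Real.log_pos hx1
        rw [lt_div_iff₀ hl] at hs2
        have h2 : 2 ≤ ‖x.1‖ * (x.2 : ℝ) ^ (-s.re) := by
          rw [← Real.log_le_log_iff (by norm_num) (mul_pos hx0 hp),
            Real.log_mul hx0.ne' hp.ne', Real.log_rpow (by linarith)]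
          linarith
        have h3 : ‖x.1 * (x.2 : ℂ) ^ (-s)‖ = ‖x.1‖ * (x.2 : ℝ) ^ (-s.re) := by
          rw [norm_mul, Complex.norm_natCast_cpow_of_pos hx.pos, Complex.neg_re]
        have h4 := norm_sub_norm_le (x.1 * (x.2 : ℂ) ^ (-s)) 1
        rw [norm_one, h3] at h4
        rw [norm_sub_rev]
        linarith
      exact one_le_mul_of_one_le_of_one_le h1 (hb s hs1)

private theorem pl_one_le {T : Finset ℕ} (D : LocData T) (F : Type) [Field F] [NumberField F] :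
    ∃ b : ℝ, ∀ s : ℂ, s.re < b → 1 ≤ ‖D.pl F s‖ := by
  obtain ⟨L, hL, h⟩ := pl_list D F
  obtain ⟨b, hb⟩ := plL_one_le L fun x hx => (hL x hx).1
  exact ⟨b, fun s hs => by rw [h]; exact hb s hs⟩

private theorem pl_line {T : Finset ℕ} (D : LocData T) (F : Type) [Field F] [NumberField F]
    (σ : ℝ) : ∃ C : ℝ, 0 ≤ C ∧ ∀ s : ℂ, s.re = σ → ‖D.pl F s‖ ≤ C := by
  obtain ⟨L, hL, h⟩ := pl_list D F
  obtain ⟨C, hC, h1⟩ := plL_bdd L (fun x hx => (hL x hx).1.ne_zero) σ σ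
  exact ⟨C, hC, fun s hs => by rw [h]; exact h1 s hs.ge hs.le⟩

variable {K : Type} [Field K] [NumberField K] {T : Finset ℕ} (D : LocData T) {a : ℕ → ℝ}
  (S : Finset (HeightOneSpectrum (𝓞 K)))

private theorem plx_one_le (x : Kˣ) : ∃ b : ℝ, ∀ s : ℂ, s.re < b → 1 ≤ ‖plx D x s‖ := by
  by_cases h : IsSquare x
  · obtain ⟨b, hb⟩ := pl_one_le D K
    refine ⟨b, fun s hs => ?_⟩
    unfold plx
    rw [dif_pos h, norm_pow]
    exact one_le_pow₀ (hb s hs)
  · obtain ⟨b, hb⟩ := pl_one_le D (qf h).L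
    refine ⟨b, fun s hs => ?_⟩
    unfold plx
    rw [dif_neg h]
    exact hb s hs

private theorem plx_line (x : Kˣ) (σ : ℝ) : ∃ C : ℝ, ∀ s : ℂ, s.re = σ → ‖plx D x s‖ ≤ C := by
  by_cases h : IsSquare x
  · obtain ⟨C, hC, hb⟩ := pl_line D K σ
    refine ⟨C ^ 2, fun s hs => ?_⟩
    unfold plx
    rw [dif_pos h, norm_pow]
    exact pow_le_pow_left₀ (norm_nonneg _) (hb s hs) 2
  · obtain ⟨C, hC, hb⟩ := pl_line D (qf h).L σ
    refine ⟨C, fun s hs => ?_⟩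
    unfold plx
    rw [dif_neg h]
    exact hb s hs

private theorem plx_ne' (x : Kˣ) {s : ℂ} (hs : 1 / 2 < s.re) : plx D x s ≠ 0 := by
  unfold plx
  split_ifs with h
  · exact pow_ne_zero 2 (pl_ne' D K hs)
  · exact pl_ne' D _ hs

theorem GGX_inv (hT : ∀ p : ℕ, p.Prime → p < 101 → p ∈ T)
    (ha : ∀ q : ℕ, |a q| ≤ 2 * Real.sqrt q) (x : Kˣ) :
    ∃ n0 : ℕ, ∀ n : ℕ, n0 ≤ n → ∃ A C : ℝ, 0 ≤ A ∧ 0 ≤ C ∧ ∀ s : ℂ,
      s.re = n + 1 / 2 → GGX S D a x (2 - s) ≠ 0 ∧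
        ‖(GGX S D a x (2 - s))⁻¹‖ ≤ C * (1 + |s.im|) ^ A := by
  classical
  obtain ⟨b, hb⟩ := plx_one_le D x
  obtain ⟨n1, hn1⟩ := exists_nat_gt (3 / 2 - b)
  refine ⟨n1 + 2, fun n hn => ?_⟩
  have hnr : (n1 : ℝ) + 2 ≤ n := by exact_mod_cast hn
  have hn0 : (0 : ℝ) ≤ n1 := Nat.cast_nonneg n1
  set σ : ℝ := (n : ℝ) + 1 / 2 with hσ
  have hre : ∀ s : ℂ, s.re = σ → (2 - s).re = 3 / 2 - n := by
    intro s hs
    rw [Complex.sub_re, hs, hσ]
    have : (2 : ℂ).re = 2 := rfl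
    rw [this]
    ring
  -- the sign
  have i1 : IB σ fun _ => wx D x := by
    refine ⟨1, zero_le_one, fun s _ => ?_⟩
    rcases wx_cases D x with h | h <;> rw [h] <;> norm_num
  -- the conductor
  have i2 : IB σ fun s => ((D0 S x ^ 2 * cdx D x : ℝ) : ℂ) ^ (1 - (2 - s)) := by
    have hA : 0 < D0 S x ^ 2 * cdx D x := mul_pos (pow_pos (D0_pos S x) 2) (cdx_pos D x)
    refine ⟨((D0 S x ^ 2 * cdx D x) ^ (σ - 1))⁻¹, by positivity, fun s hs => ⟨?_, ?_⟩⟩
    · rw [Complex.cpow_ne_zero_iff]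
      left
      exact_mod_cast hA.ne'
    · rw [norm_inv, Complex.norm_cpow_eq_rpow_re_of_pos hA]
      have h1 : (1 - (2 - s)).re = σ - 1 := by
        rw [Complex.sub_re, hre s hs, Complex.one_re, hσ]
        ring
      rw [h1]
  -- the gamma factors
  obtain ⟨Cg, hCg, hg⟩ := gam1_inv_line n (by omega)
  have i3 : IB σ fun s => (gam1 (2 - (2 - s)) * (gam1 (2 - s))⁻¹) ^
      (2 * Module.finrank ℚ K) := by
    refine ib_pow (f := fun s => gam1 (2 - (2 - s)) * (gam1 (2 - s))⁻¹) ?_ _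
    refine ⟨Cg, hCg, fun s hs => ?_⟩
    obtain ⟨h1, h2, h3⟩ := hg s hs
    have h4 : (2 : ℂ) - (2 - s) = s := by ring
    simp only
    rw [h4]
    refine ⟨mul_ne_zero h1 (inv_ne_zero h2), ?_⟩
    rw [mul_inv, inv_inv, mul_comm]
    exact h3
  -- the factors at `T`
  obtain ⟨Cp, hCp⟩ := plx_line D x σ
  have i4 : IB σ fun s => plx D x (2 - s) * (plx D x (2 - (2 - s)))⁻¹ := by
    refine ib_quot (f := fun s => plx D x (2 - s)) (g := fun s => plx D x (2 - (2 - s)))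
      one_pos (C := Cp) (fun s hs => ?_) (fun s hs => ?_) fun s hs => ?_
    · apply hb
      rw [hre s hs]
      linarith
    · have h4 : (2 : ℂ) - (2 - s) = s := by ring
      rw [h4]
      apply plx_ne' D x
      rw [hs, hσ]
      linarith
    · have h4 : (2 : ℂ) - (2 - s) = s := by ring
      rw [h4]
      exact hCp s hs
  -- the factors at the places of `S`
  have i5 : IB σ fun s => ∏ v ∈ S.filter (fun v => Away K T v),
      (FF a (nrm v) (tt x v) (2 - (2 - s)) * (FF a (nrm v) (tt x v) (2 - s))⁻¹) := by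
    refine ib_prod _ fun v hv => ?_
    have hq := nrm_ge K T hT v (Finset.mem_filter.1 hv).2
    obtain ⟨C, hC⟩ := ffi_bdd a (q := nrm v) (by omega) (tt x v : ℂ) σ σ
    have h1 := ib_quot (σ := σ) (f := fun s => (FF a (nrm v) (tt x v) (2 - s))⁻¹)
      (g := fun s => (FF a (nrm v) (tt x v) (2 - (2 - s)))⁻¹) one_pos (C := C)
      (fun s hs => ff_le_one ha hq _ (by rw [hre s hs]; linarith))
      (fun s hs => inv_ne_zero (by
        have h4 : (2 : ℂ) - (2 - s) = s := by ring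
        rw [h4]
        exact ff_ne ha hq _ (by rw [hs, hσ]; linarith)))
      (fun s hs => by
        have h4 : (2 : ℂ) - (2 - s) = s := by ring
        rw [h4]
        exact hC s hs.ge hs.le)
    have h2 : (fun s => FF a (nrm v) (tt x v) (2 - (2 - s)) *
        (FF a (nrm v) (tt x v) (2 - s))⁻¹) = fun s => (FF a (nrm v) (tt x v) (2 - s))⁻¹ *
        ((FF a (nrm v) (tt x v) (2 - (2 - s)))⁻¹)⁻¹ := by
      funext s
      rw [inv_inv, mul_comm]
    rw [h2]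
    exact h1
  obtain ⟨C, hC, h⟩ := ib_mul (ib_mul (ib_mul (ib_mul i1 i2) i3) i4) i5
  refine ⟨0, C, le_rfl, hC, fun s hs => ?_⟩
  rw [Real.rpow_zero, mul_one]
  exact h s hs

end Pool.Agent.LD
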