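import Pool.Agent.LD.I.MInv
import Pool.Agent.QD.In.V0b
import Pool.Agent.QD.In.V0c

/-!
# LD/I-Loc: the local structure at `v0`

PLAN (see the proof of `inst` in QD/Inst.lean).  `S = insert v0 S'`, `e = mk z1`, `p = mk z2`, `z1 / z2 ∈ HSub S'`.
`hq`: `nrm_ge`; `hl`: `ha`; `e_nm`: `mem_Hv` and `uK_of_LSq`; `p_nm`: `mem_Hv`, `even_of_LSq`.
`M_rel`: `h = mk y`, `LSq v0 y` (`mem_Hv`): `M (h e) w = Mx S (y z1) w = Mx S' (y z1) w * m0 v0 e0 p0 (y z1) w`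
(`M_split`), `uK v0 (y z1) = -1` (`uK_mul_of_LSq1`), `m0_e`; `ordK v0 (y z2)` is odd (`even_of_LSq`), `m0_p`;
`Mx S' (y z1) = Mx S' (y z2)` (`Mx_congr`, `(y z1)/(y z2) = z1/z2`).
`GG_rel`: `GGX_rel` for `y z1`, `y z2`, and `GG (mk z) = GGX z` by `GGX_congr` (as `hGG` in QD/Inst.lean).
`M_inv`: `M_inv_x`.
-/

namespace Pool.Agent.LD

open NumberField IsDedekindDomain Pool.Agent.HWR Pool.Agent.QD Pool.Agent.QD.In

variable {K : Type} [Field K] [NumberField K] {T : Finset ℕ} (D : LocData T) {a : ℕ → ℝ}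

open Classical in
theorem isLoc {T1 : Finset ℕ} {S' : Finset (HeightOneSpectrum (𝓞 K))} (hS' : Nic T1 S')
    (hST' : ∀ v, ¬ Away K T v → v ∈ S') (hT : ∀ p : ℕ, p.Prime → p < 101 → p ∈ T)
    (ha : ∀ q : ℕ, |a q| ≤ 2 * Real.sqrt q) (ha2 : SqRel K T a)
    (v0 : HeightOneSpectrum (𝓞 K)) (hv0 : v0 ∉ S') {e p : Kˣ} (he : uK v0 e = -1)
    (hp : Odd (ordK v0 p)) {z1 z2 : Kˣ} (h12 : z1 / z2 ∈ Pool.Agent.QD.HSub S') (hz1 : uK v0 z1 = -1)
    (hz2 : Odd (ordK v0 z2)) :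
    IsLoc (sys (insert v0 S') D a) (Hv (insert v0 S') v0)
      (QuotientGroup.mk z1 : GS (insert v0 S')) (QuotientGroup.mk z2 : GS (insert v0 S'))
      (nrm v0) (a (nrm v0)) := by
  have hS : Nic T1 (insert v0 S') := nic_insert hS' v0
  have hST : ∀ v, ¬ Away K T v → v ∈ insert v0 S' := fun v hv =>
    Finset.mem_insert_of_mem (hST' v hv)
  obtain ⟨S0, hO, hG, hsub⟩ := hS'.ex
  have h2' : ∀ v : HeightOneSpectrum (𝓞 K), (2 : 𝓞 K) ∈ v.asIdeal → v ∈ S' := fun v hv =>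
    hsub (hG.1 v hv)
  have h2 : ∀ v : HeightOneSpectrum (𝓞 K), (2 : 𝓞 K) ∈ v.asIdeal → v ∈ insert v0 S' := fun v hv =>
    Finset.mem_insert_of_mem (h2' v hv)
  have h20 : (2 : 𝓞 K) ∉ v0.asIdeal := nic_two hS' v0 hv0
  have hv0T : Away K T v0 := by
    by_contra h
    exact hv0 (hST' v0 h)
  have hmem : v0 ∈ insert v0 S' := Finset.mem_insert_self _ _
  have hGG : ∀ z : Kˣ, (sys (insert v0 S') D a).GG (QuotientGroup.mk z) =
      GGX (insert v0 S') D a z := fun z => GGX_congr D _ h2 hST (out_div _ z)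
  have hrep : ∀ h ∈ Hv (insert v0 S') v0, ∃ y : Kˣ, LSq v0 y ∧
      (QuotientGroup.mk y : GS (insert v0 S')) = h := by
    intro h hh
    obtain ⟨y, hy⟩ := QuotientGroup.mk_surjective h
    refine ⟨y, ?_, hy⟩
    rw [← hy] at hh
    exact (mem_Hv hmem y).1 hh
  have hu : ∀ y : Kˣ, LSq v0 y → uK v0 (y * z1) = -1 := by
    intro y hy
    rw [mul_comm, uK_mul_of_LSq1 (LSq1_of_LSq hy), hz1]
  have ho : ∀ y : Kˣ, LSq v0 y → Odd (ordK v0 (y * z2)) := by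
    intro y hy
    rw [Pool.Agent.QD.ordK_mul]
    exact (even_of_LSq hy).add_odd hz2
  have hd : ∀ y : Kˣ, (y * z1) / (y * z2) ∈ Pool.Agent.QD.HSub S' := by
    intro y
    rwa [mul_div_mul_left_eq_div]
  refine ⟨nrm_ge K T hT v0 hv0T, ha _, ?_, ?_, ?_, ?_, ?_⟩
  · intro h
    have h1 := uK_of_LSq ((mem_Hv hmem z1).1 h)
    rw [hz1] at h1
    norm_num at h1
  · intro h
    have h1 := even_of_LSq ((mem_Hv hmem z2).1 h)
    exact (Int.not_odd_iff_even.2 h1) hz2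
  · intro h hh w hw
    obtain ⟨y, hy, rfl⟩ := hrep h hh
    show _ * Mx (insert v0 S') (y * z1) w = _ * Mx (insert v0 S') (y * z2) w
    rw [M_split v0 he hp hS' hv0 (y * z1) w, M_split v0 he hp hS' hv0 (y * z2) w,
      Mx_congr hS' (hd y) w, m0_e v0 h20 he hp (hu y hy) hw, m0_p v0 h20 he hp (ho y hy) hw]
    ring
  · intro h hh s hs
    obtain ⟨y, hy, rfl⟩ := hrep h hh
    have e1 : (QuotientGroup.mk y * QuotientGroup.mk z1 : GS (insert v0 S')) =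
      QuotientGroup.mk (y * z1) := rfl
    have e2 : (QuotientGroup.mk y * QuotientGroup.mk z2 : GS (insert v0 S')) =
      QuotientGroup.mk (y * z2) := rfl
    have e3 := GGX_rel D S' hT ha ha2 h2' hST' v0 hv0 (hd y) (hu y hy) (ho y hy) hs
    rw [← hGG, ← hGG] at e3
    exact e3
  · intro X hX
    obtain ⟨P, Nf, hP, hd1, hd2, hd3⟩ := M_inv_x hS' v0 hv0 he hp hz1 X hX
    refine ⟨P, Nf, hP, hd1, hd2, fun h hh w hw1 hw2 => (hd3 h hh w hw1 hw2).trans ?_⟩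
    by_cases h1 : h = 1
    · rw [if_pos h1]
      exact if_pos h1
    · rw [if_neg h1]
      exact if_neg h1

end Pool.Agent.LD
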