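import Pool.Agent.LD.I.Lm

/-!
# LD/I-Sys0: the axioms of the system

The two parts of `QD/In/Sys` for the classes which are not local squares at one place `v0`.
-/

namespace Pool.Agent.LD

open NumberField IsDedekindDomain Pool.Agent.HWR Pool.Agent.QD Pool.Agent.QD.In

variable {K : Type} [Field K] [NumberField K] {T : Finset ℕ} (D : LocData T) {a : ℕ → ℝ}
  {T1 : Finset ℕ} {S : Finset (HeightOneSpectrum (𝓞 K))}

theorem isSys0 (hS : Nic T1 S) (hST : ∀ v, ¬ Away K T v → v ∈ S)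
    (hT : ∀ p : ℕ, p.Prime → p < 101 → p ∈ T)
    (ha : ∀ q : ℕ, |a q| ≤ 2 * Real.sqrt q) (ha2 : SqRel K T a) : IsSys0 (sys S D a) := by
  have h2 : ∀ v : HeightOneSpectrum (𝓞 K), (2 : 𝓞 K) ∈ v.asIdeal → v ∈ S := by
    intro v hv
    by_contra h
    exact nic_two hS v h hv
  have haw : ∀ v : Io S, Away K T v.1 := by
    intro v
    by_contra h
    exact v.2 (hST v.1 h)
  constructor
  · -- cnt
    haveI := countable_places K
    exact inferInstanceAs (Countable (Io S))
  · -- hN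
    intro v
    exact nrm_ge K T hT v.1 (haw v)
  · -- sumN
    intro x hx
    exact (summable_nrm K hx).comp_injective Subtype.val_injective
  · -- hlam
    intro v
    exact ha _
  · exact Bc_mul hS
  · exact Bc_comm hS
  · exact Bc_sq hS
  · -- R_ex
    intro b
    obtain ⟨x, hx⟩ := rel_exists hS b
    exact ⟨QuotientGroup.mk x, x, hx, rfl⟩
  · -- R_one
    exact ⟨1, fun v => by rw [ordK_one]; rfl, rfl⟩
  · -- R_coset
    intro b c c' h
    exact rel_iff hS h c'
  · exact perp_c hS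
  · exact u_odd_c hS
  · exact u_even_c hS
  · -- recip
    intro m g b c h1 h2 hd
    exact recip_c hS m g b c h1 h2 hd
  · exact R_two_c hS
  · exact u_two_c hS
  · -- Zf_diff
    intro m g h
    obtain ⟨x, _, _, he⟩ := Zc_of h
    show Differentiable ℂ (Zc S m g)
    rw [he]
    exact ZS_diff S x
  · intro m g h
    obtain ⟨x, _, _, he⟩ := Zc_of h
    show FinOrd (Zc S m g)
    rw [he]
    exact ZS_ord S x
  · -- Zf_eq
    intro m g h w hw
    obtain ⟨x, hx, hc, he⟩ := Zc_of h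
    show Zc S m g w = _
    rw [he, ZS_eq S h2 x hw]
    congr 1
    refine tprod_congr fun v => ?_
    show _ = (1 - uc S v m g * (nrm v.1 : ℂ) ^ (-w))⁻¹
    rw [uc_of hS hx hc v]
  · -- Zf_fe
    intro m g h w hw
    obtain ⟨x, hx, hc, he⟩ := Zc_of h
    show Zc S m g w = _
    rw [he, ZS_fe S h2 x hw]
    have e1 : (sys S D a).odd m = oddN S x := (oddN_eq S x m hx).symm
    have e2 : (sys S D a).Gam g = GamX S x := by
      show GamX S (Quotient.out g) = GamX S x
      rw [← hc]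
      exact GamX_congr S h2 (out_div S x)
    rw [e1, e2]
    congr 1
    refine tprod_congr fun v => ?_
    show _ = (1 - uc S v m g * (nrm v.1 : ℂ) ^ (-(1 - w)))⁻¹
    rw [uc_of hS hx hc v]
  · -- Gam_diff
    intro g w hw
    exact (GamX_diff S _ hw).differentiableWithinAt
  · intro g
    exact GamX_bd S _

theorem isGd (hS : Nic T1 S) (hST : ∀ v, ¬ Away K T v → v ∈ S)
    (hT : ∀ p : ℕ, p.Prime → p < 101 → p ∈ T)
    (ha : ∀ q : ℕ, |a q| ≤ 2 * Real.sqrt q) (ha2 : SqRel K T a)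
    {v0 : HeightOneSpectrum (𝓞 K)} (hv0 : v0 ∈ S) (H : HWq D a v0)
    (hI : ∀ x : Kˣ, ∃ n0 : ℕ, ∀ n : ℕ, n0 ≤ n → ∃ A C : ℝ, 0 ≤ A ∧ 0 ≤ C ∧ ∀ s : ℂ,
      s.re = n + 1 / 2 → GGX S D a x (2 - s) ≠ 0 ∧
        ‖(GGX S D a x (2 - s))⁻¹‖ ≤ C * (1 + |s.im|) ^ A) :
    IsGd (sys S D a) (Hv S v0) := by
  have h2 : ∀ v : HeightOneSpectrum (𝓞 K), (2 : 𝓞 K) ∈ v.asIdeal → v ∈ S := by
    intro v hv
    by_contra h
    exact nic_two hS v h hv
  constructor
  · -- ell_diff
    intro b c h hn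
    obtain ⟨x, hx, hc, he⟩ := ellc_of D a h
    have hns : ¬ LSq v0 x := fun hl => hn (hc ▸ (mem_Hv hv0 x).2 hl)
    show Differentiable ℂ (ellc S D a b c)
    rw [he]
    exact ellX_diff D S x (isLm' D hT a ha H x hns)
  · intro b c h hn
    obtain ⟨x, hx, hc, he⟩ := ellc_of D a h
    have hns : ¬ LSq v0 x := fun hl => hn (hc ▸ (mem_Hv hv0 x).2 hl)
    show FinOrd (ellc S D a b c)
    rw [he]
    exact ellX_ord D S x (isLm' D hT a ha H x hns)
  · -- ell_eq
    intro b c h hn s hs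
    obtain ⟨x, hx, hc, he⟩ := ellc_of D a h
    have hns : ¬ LSq v0 x := fun hl => hn (hc ▸ (mem_Hv hv0 x).2 hl)
    show ellc S D a b c s = _
    rw [he, ellX_eq D S h2 hST hT ha ha2 x (isLm' D hT a ha H x hns) hs]
    congr 1
    refine tprod_congr fun v => ?_
    show _ = ef a (nrm v.1) (uc S v b c) s
    rw [uc_of hS hx hc v]
  · -- ell_fe
    intro b c h hn s hs
    obtain ⟨x, hx, hc, he⟩ := ellc_of D a h
    have hns : ¬ LSq v0 x := fun hl => hn (hc ▸ (mem_Hv hv0 x).2 hl)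
    show ellc S D a b c s = _ * _ * ellc S D a b c (2 - s)
    rw [he, ellX_fe D S hT ha x (isLm' D hT a ha H x hns) hs]
    have e1 : (sys S D a).odd b = oddN S x := (oddN_eq S x b hx).symm
    have e2 : (sys S D a).GG c = GGX S D a x := by
      show GGX S D a (Quotient.out c) = GGX S D a x
      rw [← hc]
      exact GGX_congr D S h2 hST (out_div S x)
    rw [e1, e2]
  · -- GG_diff
    intro c s hs
    exact (GGX_diff D S hT ha _ hs).differentiableWithinAt
  · intro c
    exact GGX_bd D S hT ha _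
  · intro c
    exact hI _

end Pool.Agent.LD
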