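import Pool.Agent.LD.I.Good
import Pool.Agent.LD.I.Sys0
import Pool.Agent.LD.I.GInvB
import Pool.Agent.LD.I.Loc

/-!
# LD/I-Inst: the instantiation

The system of `S = insert v0 S'`, where `S'` is a good set of places not containing `v0`; the classes `e`, `p` are those of
elements which are trivial at `S'` and a nonsquare unit resp. a uniformizer (up to squares) at `v0`.
-/

namespace Pool.Agent.LD

open NumberField IsDedekindDomain Pool.Agent.HWR Pool.Agent.QD Pool.Agent.QD.In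

/-- a unit at `v0` whose residue is not a square -/
theorem exists_nonres {K : Type} [Field K] [NumberField K] (v0 : HeightOneSpectrum (𝓞 K))
    (h2 : (2 : 𝓞 K) ∉ v0.asIdeal) : ∃ e : Kˣ, uK v0 e = -1 := by
  classical
  have hfin : Finite (𝓞 K ⧸ v0.asIdeal) := Ideal.finiteQuotientOfFreeOfNeBot _ v0.ne_bot
  have hc : ringChar (𝓞 K ⧸ v0.asIdeal) ≠ 2 := by
    intro h
    apply h2
    have h3 : ((2 : ℕ) : 𝓞 K ⧸ v0.asIdeal) = 0 := by
      have h4 := ringChar.Nat.cast_ringChar (R := 𝓞 K ⧸ v0.asIdeal)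
      rwa [h] at h4
    rw [← map_natCast (Ideal.Quotient.mk v0.asIdeal) 2, Ideal.Quotient.eq_zero_iff_mem] at h3
    exact_mod_cast h3
  let := Ideal.Quotient.field v0.asIdeal
  obtain ⟨y, hy⟩ := FiniteField.exists_nonsquare hc
  obtain ⟨c, rfl⟩ := Ideal.Quotient.mk_surjective y
  have hcv : c ∉ v0.asIdeal := by
    intro h
    apply hy
    rw [Ideal.Quotient.eq_zero_iff_mem.2 h]
    exact IsSquare.zero
  have hc0 : (c : K) ≠ 0 := by
    intro h
    apply hcv
    have h5 : c = 0 := by exact_mod_cast h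
    rw [h5]
    exact v0.asIdeal.zero_mem
  have ho : ordK v0 (Units.mk0 (c : K) hc0) = 0 := by
    have h6 := ordK_nonneg_of_int v0 (Units.mk0 (c : K) hc0) c rfl
    have h7 := le_ordK_iff_of_int v0 (Units.mk0 (c : K) hc0) c rfl 1
    rw [pow_one] at h7
    by_contra h8
    apply hcv
    apply h7.1
    push_cast
    omega
  refine ⟨Units.mk0 (c : K) hc0, ?_⟩
  rcases uK_of_even (v := v0) (x := Units.mk0 (c : K) hc0) (by rw [ho]; exact Even.zero) with h | h
  · exfalso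
    have hm : (c : K) - (Units.mk0 (c : K) hc0 : Kˣ) ∈ Pool.Agent.QD.N2.Rv v0 1 := by
      rw [Units.val_mk0, sub_self]
      exact (Pool.Agent.QD.N2.Rv v0 1).zero_mem
    obtain ⟨s, hs⟩ := (Pool.Agent.QD.N2.uK_eq_one_iff ho hm).1 h
    apply hy
    refine ⟨Ideal.Quotient.mk _ s, ?_⟩
    rw [← map_mul, eq_comm, Ideal.Quotient.eq, ← pow_two]
    exact hs
  · exact h

theorem inst0 (K : Type) [Field K] [NumberField K] (T : Finset ℕ) (hTp : ∀ p ∈ T, p.Prime)
    (hT : ∀ p : ℕ, p.Prime → p < 101 → p ∈ T) (D : LocData T) (a : ℕ → ℝ)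
    (ha : ∀ q : ℕ, |a q| ≤ 2 * Real.sqrt q) (ha2 : SqRel K T a)
    (v0 : HeightOneSpectrum (𝓞 K)) (hv0 : Away K T v0) (H : HWq D a v0) :
    ∃ (S : SysD) (Hs : Subgroup S.G) (e p : S.G) (F : Finset (HeightOneSpectrum (𝓞 K))),
      IsSys0 S ∧ IsGd S Hs ∧ IsLoc S Hs e p (nrm v0) (a (nrm v0)) ∧ (∀ v ∈ F, Away K T v) ∧
      ∀ s : ℂ, 3 / 2 < s.re → LT K a T s = S.Ls s * ∏ v ∈ F, efac a (nrm v) s := by
  classical
  have h2T : 2 ∈ T := hT 2 Nat.prime_two (by norm_num)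
  obtain ⟨T1, S', hTT, hT1p, hO, hG, hv0S⟩ := exists_good_place K T hTp h2T v0 hv0
  have hS' : Nic T1 S' := ⟨hT1p, hTT h2T, S', hO, hG, subset_rfl⟩
  obtain ⟨e, he⟩ := exists_nonres v0 (nic_two hS' v0 hv0S)
  obtain ⟨p, hp1, -⟩ := nic_pi hS' v0 hv0S
  have hp : Odd (ordK v0 p) := by
    rw [hp1]
    exact odd_one
  have hS : Nic T1 (insert v0 S') := nic_insert hS' v0
  have hST' : ∀ v, ¬ Away K T v → v ∈ S' := by
    intro v hv
    refine (hO v).2 fun h => hv fun q hq => h q (hTT hq)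
  have hST : ∀ v, ¬ Away K T v → v ∈ insert v0 S' := fun v hv =>
    Finset.mem_insert_of_mem (hST' v hv)
  obtain ⟨z1, hz1, hz1'⟩ := weak_approx S' v0 hv0S 1 e
  obtain ⟨z2, hz2, hz2'⟩ := weak_approx S' v0 hv0S 1 p
  have hu1 : uK v0 z1 = -1 := by rw [(uK_congr' v0 hz1').1, he]
  have ho2 : Odd (ordK v0 z2) := (uK_congr' v0 hz2').2.2 hp
  have h12 : z1 / z2 ∈ Pool.Agent.QD.HSub S' := by
    have := (Pool.Agent.QD.HSub S').div_mem hz1 hz2
    rwa [div_div_div_cancel_right] at this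
  refine ⟨sys (insert v0 S') D a, Hv (insert v0 S') v0, QuotientGroup.mk z1,
    QuotientGroup.mk z2, (insert v0 S').filter (fun v => Away K T v), isSys0 D hS hST hT ha ha2,
    isGd D hS hST hT ha ha2 (Finset.mem_insert_self _ _) H
      (fun x => GGX_inv D (insert v0 S') hT ha x),
    isLoc D hS' hST' hT ha ha2 v0 hv0S he hp h12 hu1 ho2, ?_, ?_⟩
  · intro v hv
    exact (Finset.mem_filter.1 hv).2
  · intro s hs
    rw [LT_split (insert v0 S') hST hT ha hs]
    rfl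

end Pool.Agent.LD
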