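import Pool.Agent.LD.I.Defs
import Pool.Agent.QD.F.MkPole

/-!
# LD/I-Ord: zeros of `Lam`, comparison of orders

PLAN.  `Lam_order`: `Lam` is entire; its derivative is `log q (q^(t-1) - q^(2-t))`.  If `Lam z = 0` and the
derivative vanishes then `A = q^(z-1) = q^(2-z) = B`, `A B = q`, `A + B = lam`, so `lam^2 = 4 q`, and
`|q^(z-1)| = |q^(2-z)|` gives `Re z = 3/2`; the second derivative `(log q)^2 (A + B) = (log q)^2 lam ≠ 0`, so the order
is exactly `2` (use `analyticOrderAt` and derivatives: `AnalyticAt.analyticOrderAt_..` lemmas, or write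
`Lam (z + h) = A (q^h + q^(-h) - 2) = A (q^(h/2) - q^(-h/2))^2` in the double case; the factor `q^(h/2) - q^(-h/2)` has a
simple zero).  In the other case the order is `≤ 1` (derivative `≠ 0`: `analyticOrderAt_eq_one..` /
`AnalyticAt.analyticOrderAt_deriv_add_one`).  `Lam` is not identically zero.
`ord_half`: for `Re z > 3/2` use `hgne` (order `0`).  Let `1/2 < Re z ≤ 3/2`.  On `1/2 < Re t < R + 1` put
`U t = (A^(t/2) gam1 t ^ d)^2 * (∏_{v ∈ E} efac a (nrm v) t)^2 * ((D.pl K t)⁻¹)^2`, holomorphic (see QD/F/MkPole.lean: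
`mkp_pl_ne`, `mkp_quad_ne`, `mkp_gam_diff` for the same functions).  For `R < Re t < R + 1`:
`Lam t * f t ^ 2 = g t ^ 2 * U t * F t` (`hfg`, definition of `D.Lam`, `hLs`, `hF2`), hence on `1/2 < Re t < R + 1` by the
identity theorem (convex set).  Orders at `z`: `ord Lam + 2 ord f = 2 ord g + ord U + ord F ≥ 2 ord g`; if `ord Lam ≤ 1`
then `ord f ≥ ord g` (in `ℕ∞`; if `ord f = ⊤` trivial); if `ord Lam ≤ 2` then `ord g ≤ ord f + 1`.
-/

namespace Pool.Agent.LD

open NumberField IsDedekindDomain Pool.Agent.HWR Pool.Agent.QD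

open scoped TensorProduct

private theorem ord_le_one {f : ℂ → ℂ} {z : ℂ} (hf : AnalyticAt ℂ f z) (h : deriv f z ≠ 0) :
    analyticOrderAt f z ≤ 1 := by
  by_cases h0 : f z = 0
  · rw [hf.analyticOrderAt_eq_one_of_zero_deriv_ne_zero h0 h]
  · rw [hf.analyticOrderAt_eq_zero.2 h0]
    exact zero_le

private theorem hasDeriv_pow1 {Q : ℂ} (hQ : Q ≠ 0) (t : ℂ) :
    HasDerivAt (fun t : ℂ => Q ^ (t - 1)) (Complex.log Q * Q ^ (t - 1)) t := by
  have h1 : HasDerivAt (fun t : ℂ => t - 1) 1 t := (hasDerivAt_id t).sub_const 1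
  have h2 := h1.const_cpow (c := Q) (Or.inl hQ)
  convert h2 using 1
  ring

private theorem hasDeriv_pow2 {Q : ℂ} (hQ : Q ≠ 0) (t : ℂ) :
    HasDerivAt (fun t : ℂ => Q ^ (2 - t)) (-(Complex.log Q * Q ^ (2 - t))) t := by
  have h1 : HasDerivAt (fun t : ℂ => 2 - t) (-1) t := (hasDerivAt_id t).const_sub 2
  have h2 := h1.const_cpow (c := Q) (Or.inl hQ)
  convert h2 using 1
  ring

private theorem hasDeriv_Lam {q : ℕ} (hq : 101 ≤ q) (lam : ℝ) (t : ℂ) :
    HasDerivAt (Lam q lam)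
      (Complex.log q * (q : ℂ) ^ (t - 1) + -(Complex.log q * (q : ℂ) ^ (2 - t))) t := by
  have hQ : (q : ℂ) ≠ 0 := by exact_mod_cast (by omega : q ≠ 0)
  exact ((hasDeriv_pow1 hQ t).add (hasDeriv_pow2 hQ t)).sub_const (lam : ℂ)

private theorem Lam_diff {q : ℕ} (hq : 101 ≤ q) (lam : ℝ) : Differentiable ℂ (Lam q lam) :=
  fun t => (hasDeriv_Lam hq lam t).differentiableAt

theorem Lam_order {q : ℕ} (hq : 101 ≤ q) (lam : ℝ) (z : ℂ) :
    analyticOrderAt (Lam q lam) z ≤ 1 ∨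
      (lam ^ 2 = 4 * q ∧ z.re = 3 / 2 ∧ analyticOrderAt (Lam q lam) z ≤ 2) := by
  have hQ : (q : ℂ) ≠ 0 := by exact_mod_cast (by omega : q ≠ 0)
  have hqR : (1 : ℝ) < q := by exact_mod_cast (by omega : 1 < q)
  have hlog : Complex.log q ≠ 0 := by
    intro h
    have h1 := Complex.exp_log hQ
    rw [h, Complex.exp_zero] at h1
    have h2 : q = 1 := by exact_mod_cast h1.symm
    omega
  have hd : Differentiable ℂ (Lam q lam) := Lam_diff hq lam
  have ha : AnalyticAt ℂ (Lam q lam) z := hd.analyticAt z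
  by_cases h0 : Lam q lam z = 0
  swap
  · left
    rw [ha.analyticOrderAt_eq_zero.2 h0]
    exact zero_le
  by_cases h1 : (q : ℂ) ^ (z - 1) = (q : ℂ) ^ (2 - z)
  swap
  · left
    refine ord_le_one ha ?_
    rw [(hasDeriv_Lam hq lam z).deriv, ← sub_eq_add_neg, ← mul_sub]
    exact mul_ne_zero hlog (sub_ne_zero.2 h1)
  right
  have hAB : (q : ℂ) ^ (z - 1) * (q : ℂ) ^ (2 - z) = q := by
    rw [← Complex.cpow_add _ _ hQ]
    have : z - 1 + (2 - z) = 1 := by ring
    rw [this, Complex.cpow_one]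
  have hsum : (q : ℂ) ^ (z - 1) + (q : ℂ) ^ (2 - z) = (lam : ℂ) := by
    have h2 : (q : ℂ) ^ (z - 1) + (q : ℂ) ^ (2 - z) - (lam : ℂ) = 0 := h0
    exact sub_eq_zero.1 h2
  have hB0 : (q : ℂ) ^ (2 - z) ≠ 0 := Complex.cpow_ne_zero_iff.mpr (Or.inl hQ)
  refine ⟨?_, ?_, ?_⟩
  · have h3 : ((lam ^ 2 : ℝ) : ℂ) = ((4 * q : ℝ) : ℂ) := by
      push_cast
      rw [← hsum]
      rw [h1] at hAB ⊢
      linear_combination 4 * hAB
    exact_mod_cast h3
  · have hq0 : 0 < q := by omega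
    have h3 : ‖(q : ℂ) ^ (z - 1)‖ = ‖(q : ℂ) ^ (2 - z)‖ := by rw [h1]
    rw [Complex.norm_natCast_cpow_of_pos hq0, Complex.norm_natCast_cpow_of_pos hq0] at h3
    have h4 : (z - 1).re = (2 - z).re := by
      refine le_antisymm ?_ ?_
      · exact (Real.rpow_le_rpow_left_iff hqR).1 h3.le
      · exact (Real.rpow_le_rpow_left_iff hqR).1 h3.ge
    simp only [Complex.sub_re, Complex.one_re, Complex.re_ofNat] at h4
    linarith
  · have h5 := ha.analyticOrderAt_deriv_add_one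
    rw [h0] at h5
    simp only [sub_zero] at h5
    have h6 : deriv (Lam q lam) = fun t : ℂ =>
        Complex.log q * (q : ℂ) ^ (t - 1) + -(Complex.log q * (q : ℂ) ^ (2 - t)) := by
      funext t
      exact (hasDeriv_Lam hq lam t).deriv
    have h7 : HasDerivAt (fun t : ℂ =>
        Complex.log q * (q : ℂ) ^ (t - 1) + -(Complex.log q * (q : ℂ) ^ (2 - t)))
        (Complex.log q * (Complex.log q * (q : ℂ) ^ (z - 1)) +
          -(Complex.log q * -(Complex.log q * (q : ℂ) ^ (2 - z)))) z :=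
      ((hasDeriv_pow1 hQ z).const_mul _).add ((hasDeriv_pow2 hQ z).const_mul _).neg
    have h8 : analyticOrderAt (deriv (Lam q lam)) z ≤ 1 := by
      refine ord_le_one (ha.deriv) ?_
      rw [h6, h7.deriv, h1]
      have h9 : Complex.log q * (Complex.log q * (q : ℂ) ^ (2 - z)) +
          -(Complex.log q * -(Complex.log q * (q : ℂ) ^ (2 - z))) =
          2 * (Complex.log q * (Complex.log q * (q : ℂ) ^ (2 - z))) := by ring
      rw [h9]
      exact mul_ne_zero two_ne_zero (mul_ne_zero hlog (mul_ne_zero hlog hB0))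
    have h10 : analyticOrderAt (Lam q lam) z = analyticOrderAt (deriv (Lam q lam)) z + 1 := h5.symm
    rw [h10]
    calc analyticOrderAt (deriv (Lam q lam)) z + 1 ≤ 1 + 1 := add_le_add h8 le_rfl
      _ = 2 := by norm_num

private theorem o_cd_pos (K : Type) [Field K] [NumberField K] {T : Finset ℕ} (D : LocData T) :
    0 < D.cd K := by
  classical
  unfold LocData.cd
  refine Finset.prod_pos fun p hp => ?_
  split_ifs with h
  · haveI := Fact.mk h
    exact D.cond_pos p (ℚ_[p] ⊗[ℚ] K)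
  · exact one_pos

private theorem o_A_pos (K : Type) [Field K] [NumberField K] {T : Finset ℕ} (D : LocData T) :
    0 < D.A K := by
  unfold LocData.A
  have h1 : (NumberField.discr K : ℝ) ≠ 0 := by exact_mod_cast NumberField.discr_ne_zero K
  have h2 := o_cd_pos K D
  positivity

private theorem o_pl_ne (K : Type) [Field K] [NumberField K] {T : Finset ℕ} (D : LocData T)
    {t : ℂ} (ht : 1 / 2 < t.re) : D.pl K t ≠ 0 := by
  classical
  unfold LocData.pl
  refine Finset.prod_ne_zero_iff.2 fun p hp => ?_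
  split_ifs with h
  · haveI := Fact.mk h
    intro h0
    have h1 := D.pol_root p (ℚ_[p] ⊗[ℚ] K) _ h0
    have hp0 : 0 < p := h.pos
    rw [Complex.norm_natCast_cpow_of_pos hp0, Complex.neg_re] at h1
    have hp1 : (1 : ℝ) < p := by exact_mod_cast h.one_lt
    rw [Real.rpow_le_rpow_left_iff hp1] at h1
    linarith
  · exact one_ne_zero

private theorem o_pl_diff (K : Type) [Field K] [NumberField K] {T : Finset ℕ} (D : LocData T) :
    Differentiable ℂ (D.pl K) := by
  classical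
  unfold LocData.pl
  refine Differentiable.fun_finset_prod fun p hp => ?_
  split_ifs with h
  · haveI := Fact.mk h
    have hp0 : (p : ℂ) ≠ 0 := by exact_mod_cast h.ne_zero
    have h2 : Differentiable ℂ (fun s : ℂ => (p : ℂ) ^ (-s)) := by
      intro s
      exact (differentiableAt_id.neg).const_cpow (Or.inl hp0)
    exact Differentiable.fun_comp (Polynomial.differentiable _) h2
  · exact differentiable_const _

private theorem o_unit {c : ℝ} (hc : |c| ≤ 2) {x : ℂ} (hx : ‖x‖ < 1) :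
    1 - (c : ℂ) * x + x ^ 2 ≠ 0 := by
  intro h
  have hre : 1 - c * x.re + (x.re * x.re - x.im * x.im) = 0 := by
    have := congrArg Complex.re h
    simpa [sq] using this
  have him : -(c * x.im) + (x.re * x.im + x.im * x.re) = 0 := by
    have := congrArg Complex.im h
    simpa [sq] using this
  have hn : x.re * x.re + x.im * x.im < 1 := by
    have h1 : ‖x‖ ^ 2 < 1 := by
      have h2 := norm_nonneg x
      nlinarith
    rw [← Complex.normSq_eq_norm_sq, Complex.normSq_apply] at h1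
    exact h1
  have h3 : x.im * (2 * x.re - c) = 0 := by linear_combination him
  rcases mul_eq_zero.1 h3 with h4 | h4
  · rw [h4] at hre hn
    have h5 : c * x.re ≤ 2 * |x.re| := by
      calc c * x.re ≤ |c * x.re| := le_abs_self _
        _ = |c| * |x.re| := abs_mul _ _
        _ ≤ 2 * |x.re| := mul_le_mul_of_nonneg_right hc (abs_nonneg _)
    have h6 : |x.re| * |x.re| = x.re * x.re := abs_mul_abs_self _
    have h7 : (1 - |x.re|) ^ 2 ≤ 0 := by nlinarith
    have h8 : 1 - |x.re| = 0 := by nlinarith [sq_nonneg (1 - |x.re|)]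
    have h9 : |x.re| = 1 := by linarith
    rw [h9] at h6
    linarith
  · have h5 : c = 2 * x.re := by linarith
    rw [h5] at hre
    nlinarith

private theorem o_quad_ne {a : ℕ → ℝ} (ha : ∀ q : ℕ, |a q| ≤ 2 * Real.sqrt q) {q : ℕ}
    (hq : 101 ≤ q) {t : ℂ} (ht : 1 / 2 < t.re) :
    1 - (a q : ℂ) * (q : ℂ) ^ (-t) + (q : ℂ) ^ (1 - 2 * t) ≠ 0 := by
  have hq0 : 0 < q := by omega
  have hQ : (q : ℂ) ≠ 0 := by exact_mod_cast hq0.ne'
  have hqR : (1 : ℝ) < q := by exact_mod_cast (by omega : 1 < q)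
  have hqp : (0 : ℝ) < q := by linarith
  have hs : 0 < Real.sqrt q := Real.sqrt_pos.2 hqp
  have hsC : ((Real.sqrt q : ℝ) : ℂ) ≠ 0 := by exact_mod_cast hs.ne'
  have hsq : ((Real.sqrt q : ℝ) : ℂ) ^ 2 = q := by
    have h := Real.sq_sqrt hqp.le
    exact_mod_cast congrArg (fun r : ℝ => (r : ℂ)) h
  have hc : |a q / Real.sqrt q| ≤ 2 := by
    rw [abs_div, abs_of_pos hs, div_le_iff₀ hs]
    exact ha q
  have hx : ‖((Real.sqrt q : ℝ) : ℂ) * (q : ℂ) ^ (-t)‖ < 1 := by
    rw [norm_mul, Complex.norm_natCast_cpow_of_pos hq0, Complex.norm_real, Real.norm_eq_abs,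
      abs_of_pos hs, Complex.neg_re, Real.sqrt_eq_rpow, ← Real.rpow_add hqp]
    refine Real.rpow_lt_one_of_one_lt_of_neg hqR ?_
    linarith
  have key := o_unit hc hx
  have e1 : ((a q / Real.sqrt q : ℝ) : ℂ) * (((Real.sqrt q : ℝ) : ℂ) * (q : ℂ) ^ (-t)) =
      (a q : ℂ) * (q : ℂ) ^ (-t) := by
    push_cast
    field_simp
  have e2 : (((Real.sqrt q : ℝ) : ℂ) * (q : ℂ) ^ (-t)) ^ 2 = (q : ℂ) ^ (1 - 2 * t) := by
    rw [mul_pow, hsq]
    have h1 : (1 : ℂ) - 2 * t = 1 + (-t + -t) := by ring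
    rw [h1, Complex.cpow_add _ _ hQ, Complex.cpow_add _ _ hQ, Complex.cpow_one]
    ring
  rw [e1, e2] at key
  exact key

private theorem o_quad_diff (a : ℕ → ℝ) {q : ℕ} (hq : q ≠ 0) :
    Differentiable ℂ fun t : ℂ => 1 - (a q : ℂ) * (q : ℂ) ^ (-t) + (q : ℂ) ^ (1 - 2 * t) := by
  have hq0 : (q : ℂ) ≠ 0 := by exact_mod_cast hq
  intro t
  refine ((differentiableAt_const _).sub ((differentiableAt_const _).mul ?_)).add ?_
  · exact (differentiableAt_id.neg).const_cpow (Or.inl hq0)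
  · exact ((differentiableAt_const _).sub ((differentiableAt_const _).mul
      differentiableAt_id)).const_cpow (Or.inl hq0)

private theorem o_gam_ne {t : ℂ} (ht : 0 < t.re) : gam1 t ≠ 0 := by
  unfold gam1
  refine mul_ne_zero ?_ (Complex.Gamma_ne_zero_of_re_pos ht)
  have h : (2 * (Real.pi : ℂ)) ≠ 0 := by
    have := Real.pi_ne_zero
    exact mul_ne_zero two_ne_zero (by exact_mod_cast this)
  rw [Complex.cpow_def_of_ne_zero h]
  exact Complex.exp_ne_zero _

private theorem o_gam_diff {t : ℂ} (ht : 0 < t.re) : DifferentiableAt ℂ gam1 t := by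
  unfold gam1
  have h : (2 * (Real.pi : ℂ)) ≠ 0 := by
    have := Real.pi_ne_zero
    exact mul_ne_zero two_ne_zero (by exact_mod_cast this)
  refine ((differentiableAt_id.neg).const_cpow (Or.inl h)).mul ?_
  refine Complex.differentiableAt_Gamma t fun m hm => ?_
  rw [hm] at ht
  simp at ht
  have : (0 : ℝ) ≤ (m : ℝ) := Nat.cast_nonneg m
  linarith

private theorem enat_arith (l F G U : ℕ∞) (h : l + 2 • F = 2 • G + U) :
    (l ≤ 1 → G ≤ F) ∧ (l ≤ 2 → G ≤ F + 1) := by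
  induction F using ENat.recTopCoe with
  | top => exact ⟨fun _ => le_top, fun _ => by simp⟩
  | coe F =>
    have key : ∀ n : ℕ, l ≤ (n : ℕ∞) → ∃ l' G' U' : ℕ, G = G' ∧ l' ≤ n ∧ l' + 2 * F = 2 * G' + U' := by
      intro n hn
      obtain ⟨l', hl', hln⟩ : ∃ l' : ℕ, l = l' ∧ l' ≤ n := by
        have h1 : l ≠ ⊤ := fun h2 => by
          rw [h2] at hn
          exact absurd hn (by simp)
        obtain ⟨l', rfl⟩ := ENat.ne_top_iff_exists.1 h1
        exact ⟨l', rfl, by exact_mod_cast hn⟩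
      subst hl'
      have h3 : (l' : ℕ∞) + 2 • (F : ℕ∞) = ((l' + 2 * F : ℕ) : ℕ∞) := by
        push_cast
        rw [nsmul_eq_mul]
        norm_num
      rw [h3] at h
      have hU : U ≠ ⊤ := by
        rintro rfl
        rw [add_top] at h
        exact ENat.natCast_ne_top _ h
      have hG : G ≠ ⊤ := by
        rintro rfl
        rw [nsmul_eq_mul] at h
        have h4 : ((2 : ℕ) : ℕ∞) * ⊤ = ⊤ := ENat.mul_top (by norm_num)
        rw [h4, top_add] at h
        exact ENat.natCast_ne_top _ h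
      obtain ⟨U', rfl⟩ := ENat.ne_top_iff_exists.1 hU
      obtain ⟨G', rfl⟩ := ENat.ne_top_iff_exists.1 hG
      refine ⟨l', G', U', rfl, hln, ?_⟩
      rw [nsmul_eq_mul] at h
      exact_mod_cast h
    constructor
    · intro hl
      obtain ⟨l', G', U', rfl, h1, h2⟩ := key 1 (by simpa using hl)
      have : G' ≤ F := by omega
      exact_mod_cast this
    · intro hl
      obtain ⟨l', G', U', rfl, h1, h2⟩ := key 2 (by simpa using hl)
      have : G' ≤ F + 1 := by omega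
      exact_mod_cast this

theorem ord_half (K : Type) [Field K] [NumberField K] (T : Finset ℕ) (hTp : ∀ p ∈ T, p.Prime)
    (hT : ∀ p : ℕ, p.Prime → p < 101 → p ∈ T) (D : LocData T) (a : ℕ → ℝ)
    (ha : ∀ q : ℕ, |a q| ≤ 2 * Real.sqrt q) {f g : ℂ → ℂ} (hf : Differentiable ℂ f)
    (hg : Differentiable ℂ g) (hgne : ∀ s : ℂ, 3 / 2 < s.re → g s ≠ 0)
    (hfg : ∀ s : ℂ, 3 / 2 < s.re → g s * D.Lam a K s = f s) (S : SysD)
    (E : Finset (HeightOneSpectrum (𝓞 K))) (hE : ∀ v ∈ E, Away K T v)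
    (hLs : ∀ s : ℂ, 3 / 2 < s.re → LT K a T s = S.Ls s * ∏ v ∈ E, efac a (nrm v) s)
    {q : ℕ} {lam : ℝ} (hq : 101 ≤ q) {R : ℝ} (hR : 6 ≤ R) {F : ℂ → ℂ}
    (hF : DifferentiableOn ℂ F {t : ℂ | 0 < t.re ∧ t.re < R + 1})
    (hF2 : ∀ t : ℂ, R < t.re → t.re < R + 1 → F t = Lam q lam t * S.Ls t ^ 2) :
    ∀ z : ℂ, 1 / 2 < z.re → analyticOrderAt g z ≤ analyticOrderAt f z ∨
      (lam ^ 2 = 4 * q ∧ z.re = 3 / 2 ∧ analyticOrderAt g z ≤ analyticOrderAt f z + 1) := by
  intro z hz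
  have hgA : AnalyticAt ℂ g z := hg.analyticAt z
  have hfA : AnalyticAt ℂ f z := hf.analyticAt z
  by_cases hz2 : 3 / 2 < z.re
  · left
    rw [hgA.analyticOrderAt_eq_zero.2 (hgne z hz2)]
    exact zero_le
  have hAc : ((D.A K : ℝ) : ℂ) ≠ 0 := by exact_mod_cast (o_A_pos K D).ne'
  have hqE : ∀ v ∈ E, 101 ≤ nrm v := fun v hv => nrm_away K T hT v (hE v hv)
  obtain ⟨W, hW⟩ : ∃ W : ℂ → ℂ, W = fun t =>
      ((D.A K : ℝ) : ℂ) ^ (t / 2) * gam1 t ^ Module.finrank ℚ K := ⟨_, rfl⟩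
  obtain ⟨Qd, hQd⟩ : ∃ Qd : ℂ → ℂ, Qd = fun t =>
      ∏ v ∈ E, (1 - (a (nrm v) : ℂ) * (nrm v : ℂ) ^ (-t) + (nrm v : ℂ) ^ (1 - 2 * t)) := ⟨_, rfl⟩
  have hWne : ∀ t : ℂ, 0 < t.re → W t ≠ 0 := by
    intro t ht
    rw [hW]
    refine mul_ne_zero ?_ (pow_ne_zero _ (o_gam_ne ht))
    rw [Complex.cpow_def_of_ne_zero hAc]
    exact Complex.exp_ne_zero _
  have hWd : DifferentiableOn ℂ W {t : ℂ | 0 < t.re} := by
    intro t ht
    rw [hW]
    exact (((differentiableAt_id.div_const 2).const_cpow (Or.inl hAc)).mul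
      ((o_gam_diff ht).pow _)).differentiableWithinAt
  have hQne : ∀ t : ℂ, 1 / 2 < t.re → Qd t ≠ 0 := by
    intro t ht
    rw [hQd]
    exact Finset.prod_ne_zero_iff.2 fun v hv => o_quad_ne ha (hqE v hv) ht
  have hQdd : Differentiable ℂ Qd := by
    intro t
    rw [hQd]
    refine DifferentiableAt.fun_finset_prod fun v hv => ?_
    have := hqE v hv
    exact o_quad_diff a (q := nrm v) (by omega) t
  have hPd : Differentiable ℂ (D.pl K) := o_pl_diff K D
  have hLd : Differentiable ℂ (Lam q lam) := Lam_diff hq lam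
  -- the strip
  have hO1 : IsOpen {t : ℂ | 1 / 2 < t.re ∧ t.re < R + 1} :=
    (isOpen_lt continuous_const Complex.continuous_re).inter
      (isOpen_lt Complex.continuous_re continuous_const)
  have hO0 : IsOpen {t : ℂ | 0 < t.re ∧ t.re < R + 1} :=
    (isOpen_lt continuous_const Complex.continuous_re).inter
      (isOpen_lt Complex.continuous_re continuous_const)
  have hOp : IsOpen {t : ℂ | 0 < t.re} := isOpen_lt continuous_const Complex.continuous_re
  have hconv : Convex ℝ {t : ℂ | 1 / 2 < t.re ∧ t.re < R + 1} :=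
    (convex_halfSpace_re_gt (1 / 2)).inter (convex_halfSpace_re_lt (R + 1))
  have hFA : ∀ t : ℂ, 1 / 2 < t.re → t.re < R + 1 → AnalyticAt ℂ F t := fun t h1 h2 =>
    hF.analyticAt (hO0.mem_nhds ⟨by linarith, h2⟩)
  have hWA : ∀ t : ℂ, 1 / 2 < t.re → AnalyticAt ℂ W t := fun t h1 =>
    hWd.analyticAt (hOp.mem_nhds (by
      change 0 < t.re
      linarith))
  have hL1 : ∀ t : ℂ, 1 / 2 < t.re → t.re < R + 1 →
      AnalyticAt ℂ (Lam q lam * f ^ 2 * (D.pl K) ^ 2 * Qd ^ 2) t := fun t h1 h2 =>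
    (((hLd.analyticAt t).mul ((hf.analyticAt t).pow 2)).mul ((hPd.analyticAt t).pow 2)).mul
      ((hQdd.analyticAt t).pow 2)
  have hR1 : ∀ t : ℂ, 1 / 2 < t.re → t.re < R + 1 →
      AnalyticAt ℂ (g ^ 2 * W ^ 2 * F) t := fun t h1 h2 =>
    (((hg.analyticAt t).pow 2).mul ((hWA t h1).pow 2)).mul (hFA t h1 h2)
  have hid : ∀ t : ℂ, R < t.re → t.re < R + 1 →
      (Lam q lam * f ^ 2 * (D.pl K) ^ 2 * Qd ^ 2) t = (g ^ 2 * W ^ 2 * F) t := by
    intro t h1 h2
    have ht : 3 / 2 < t.re := by linarith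
    have h3 := hfg t ht
    have h4 := hLs t ht
    have h5 := hF2 t h1 h2
    have h6 := o_pl_ne K D (t := t) (by linarith)
    have h7 := hQne t (by linarith)
    have h8 : (∏ v ∈ E, efac a (nrm v) t) * Qd t = 1 := by
      rw [hQd]
      simp only
      rw [← Finset.prod_mul_distrib]
      refine Finset.prod_eq_one fun v hv => ?_
      unfold efac
      exact inv_mul_cancel₀ (o_quad_ne ha (hqE v hv) (by linarith))
    have h9 : LT K a T t * Qd t = S.Ls t := by
      rw [h4, mul_assoc, h8, mul_one]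
    have h10 : D.Lam a K t * D.pl K t = W t * LT K a T t := by
      rw [hW]
      unfold LocData.Lam
      field_simp
    have h11 : f t * D.pl K t * Qd t = g t * W t * S.Ls t := by
      rw [← h9, ← h3]
      linear_combination (g t * Qd t) * h10
    change Lam q lam t * f t ^ 2 * (D.pl K t) ^ 2 * Qd t ^ 2 = g t ^ 2 * W t ^ 2 * F t
    rw [h5]
    linear_combination (Lam q lam t * (f t * D.pl K t * Qd t + g t * W t * S.Ls t)) * h11
  have hpt : ((R + 1 / 2 : ℝ) : ℂ) ∈ {t : ℂ | 1 / 2 < t.re ∧ t.re < R + 1} := by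
    constructor
    · rw [Complex.ofReal_re]
      linarith
    · rw [Complex.ofReal_re]
      linarith
  have hev : (Lam q lam * f ^ 2 * (D.pl K) ^ 2 * Qd ^ 2) =ᶠ[nhds ((R + 1 / 2 : ℝ) : ℂ)]
      (g ^ 2 * W ^ 2 * F) := by
    have hO2 : IsOpen {t : ℂ | R < t.re ∧ t.re < R + 1} :=
      (isOpen_lt continuous_const Complex.continuous_re).inter
        (isOpen_lt Complex.continuous_re continuous_const)
    refine Filter.mem_of_superset (hO2.mem_nhds ?_) fun t ht => hid t ht.1 ht.2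
    constructor
    · rw [Complex.ofReal_re]
      linarith
    · rw [Complex.ofReal_re]
      linarith
  have hEq : Set.EqOn (Lam q lam * f ^ 2 * (D.pl K) ^ 2 * Qd ^ 2) (g ^ 2 * W ^ 2 * F)
      {t : ℂ | 1 / 2 < t.re ∧ t.re < R + 1} :=
    AnalyticOnNhd.eqOn_of_preconnected_of_eventuallyEq (fun t ht => hL1 t ht.1 ht.2)
      (fun t ht => hR1 t ht.1 ht.2) hconv.isPreconnected hpt hev
  have hzR : z.re < R + 1 := by
    push Not at hz2
    linarith
  have hcg : (Lam q lam * f ^ 2 * (D.pl K) ^ 2 * Qd ^ 2) =ᶠ[nhds z] (g ^ 2 * W ^ 2 * F) :=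
    Filter.mem_of_superset (hO1.mem_nhds ⟨hz, hzR⟩) fun t ht => hEq ht
  have hord := analyticOrderAt_congr hcg
  have hLA := hLd.analyticAt z
  have hPA := hPd.analyticAt z
  have hQA := hQdd.analyticAt z
  have hWz := hWA z hz
  rw [analyticOrderAt_mul ((hLA.mul (hfA.pow 2)).mul (hPA.pow 2)) (hQA.pow 2),
    analyticOrderAt_mul (hLA.mul (hfA.pow 2)) (hPA.pow 2),
    analyticOrderAt_mul hLA (hfA.pow 2),
    analyticOrderAt_mul ((hgA.pow 2).mul (hWz.pow 2)) (hFA z hz hzR),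
    analyticOrderAt_mul (hgA.pow 2) (hWz.pow 2),
    analyticOrderAt_pow hfA, analyticOrderAt_pow hPA, analyticOrderAt_pow hQA,
    analyticOrderAt_pow hgA, analyticOrderAt_pow hWz,
    hPA.analyticOrderAt_eq_zero.2 (o_pl_ne K D hz),
    hQA.analyticOrderAt_eq_zero.2 (hQne z hz),
    hWz.analyticOrderAt_eq_zero.2 (hWne z (by linarith))] at hord
  simp only [nsmul_zero, add_zero] at hord
  obtain ⟨k1, k2⟩ := enat_arith _ _ _ _ hord
  rcases Lam_order hq lam z with h | ⟨h1, h2, h3⟩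
  · exact Or.inl (k1 h)
  · exact Or.inr ⟨h1, h2, k2 h3⟩

end Pool.Agent.LD
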