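import Pool.Agent.QD.Inst
import Pool.Agent.LD.A.Dfac

/-!
# LD/I, instantiation: definitions
-/

namespace Pool.Agent.LD

open NumberField IsDedekindDomain Pool.Agent.HWR Pool.Agent.QD Pool.Agent.QD.In

variable {K : Type} [Field K] [NumberField K]

/-- the classes of `G_S` which are local squares at `v` -/
noncomputable def Hv (S : Finset (HeightOneSpectrum (𝓞 K))) (v : HeightOneSpectrum (𝓞 K)) :
    Subgroup (GS S) :=
  (LSub v).map (QuotientGroup.mk' (HSub S))

theorem mem_Hv {S : Finset (HeightOneSpectrum (𝓞 K))} {v : HeightOneSpectrum (𝓞 K)} (hv : v ∈ S)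
    (x : Kˣ) : (QuotientGroup.mk x : GS S) ∈ Hv S v ↔ LSq v x := by
  constructor
  · rintro ⟨y, hy, hxy⟩
    have h1 : (QuotientGroup.mk y : GS S) = QuotientGroup.mk x := hxy
    have h2 := (mk_eq_iff S y x).1 h1
    have h3 : LSq v (y / x) := h2.1 v hv
    have h4 : LSq v (y / (y / x)) := LSq_div hy h3
    rwa [div_div_cancel] at h4
  · intro h
    exact ⟨x, h, rfl⟩

/-- the scattering coefficient of a class -/
noncomputable def Mc (S : Finset (HeightOneSpectrum (𝓞 K))) (c : GS S) (w : ℂ) : ℂ :=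
  letI : Fintype (GS S) := Fintype.ofFinite _
  ∑ b : GS S, Bc S c b * GamX S (Quotient.out b) w

theorem Mc_mk (S : Finset (HeightOneSpectrum (𝓞 K))) (x : Kˣ) (w : ℂ) :
    Mc S (QuotientGroup.mk x) w = Mx S x w := rfl

theorem sys_M {T : Finset ℕ} (D : LocData T) (a : ℕ → ℝ) (S : Finset (HeightOneSpectrum (𝓞 K)))
    (c : GS S) (w : ℂ) : (sys S D a).M c w = Mc S c w := rfl

/-- Hasse-Weil for all quadratic extensions `K(√x)` in which `v` does not split -/
def HWq {T : Finset ℕ} (D : LocData T) (a : ℕ → ℝ) (v : HeightOneSpectrum (𝓞 K)) : Prop :=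
  ∀ x : Kˣ, ¬ LSq v x → ∀ (L : Type) [Field L] [NumberField L] [Algebra K L] (θ : L),
    Module.finrank K L = 2 → θ ^ 2 = algebraMap K L (x : K) → D.HW a L

end Pool.Agent.LD
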