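import Pool.Agent.LD.I.GamInv
import Pool.Agent.LD.I.Defs

/-!
# LD/I-MInv: inversion of the scattering matrix on the classes which are trivial at `v0`

`S = insert v0 S'`, `z1` with `uK v0 z1 = -1`, `e p` as in `M_split` (QD/In/V0a).

PLAN.  `m : Hv S v0 → GS S'`, the map induced by `HSub S ≤ HSub S'` (`QuotientGroup.map` or
`QuotientGroup.lift`), restricted to `Hv S v0`, is bijective: injective: `x` with `LSq v0 x` and `x ∈ HSub S'` lies
in `HSub S`; surjective: `weak_approx S' v0 hv0 x 1` gives `z` with `z / x ∈ HSub S'` and `LSq v0 (z / 1)`.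
For `g h ∈ Hv S v0` with representatives `y, y'`: `M (g h mk z1) w = Mx S (y y' z1) w = Mx S' (y y' z1) w * m0 ..`
(`M_split`), and `uK v0 (y y' z1) = -1` (`uK_mul_of_LSq1`), so `m0 = √q (1 + q^(w-3/2)) ph q w =: r` (`m0_e`).
`Mc`, `Mc_mk` in LD/I/Defs; `Mx S' x w = ∑ b, Bc S' (mk x) b * GamX S' (out b) w`.
`GamX_inv` for every class `b` of `GS S'` (choice): `P b`, `N b`; `P = ∏ b, P b`, and
`N' b w = N b w * ∏_{b' ≠ b} (P b').eval w`, so `GamX S' (out b) w * N' b w = P.eval w`; `loc_inv`: `Nr`, `r * Nr = 1`.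
`Nf g w = |GS S'|^(-2) ∑ b, Bc S' (m g * mk z1) b * N' b w * Nr w` for `g ∈ Hv S v0` (any value otherwise: with
`m` defined on all of `GS S` by `QuotientGroup.lift` the same formula can be used for all `g`).
`∑_{g ∈ H} Nf g M (g h z1) = |G'|^(-2) ∑_{g' ∈ G'} ∑_{b, b'} Bc(g' z1, b) Bc(g' h' z1, b') N' b Γ b'` with
`Γ b' N' b`; sum over `g'`: `∑_{g'} Bc(g', b) Bc(g', b') = |G'| [b = b']` (`Bc_mul`, `Bc_sq`, `sum_Bc`); what is left is
`|G'|^(-1) ∑ b, Bc(z1, b)^2 Bc(h', b) P = P [h' = 1]`; and `h' = 1` iff `h = 1` by injectivity.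
Sums over `Hv S v0` inside sums over `GS S`: `Finset.sum_filter`, `Finset.sum_bij` or `Fintype.sum_equiv`.
-/

namespace Pool.Agent.LD

open NumberField IsDedekindDomain Pool.Agent.HWR Pool.Agent.QD Pool.Agent.QD.In

variable {K : Type} [Field K] [NumberField K]

/-! ### Polynomial growth in a strip -/

private def Pg (a b : ℝ) (f : ℂ → ℂ) : Prop :=
  ∃ A C : ℝ, 0 ≤ A ∧ 0 ≤ C ∧ ∀ w : ℂ, a ≤ w.re → w.re ≤ b → ‖f w‖ ≤ C * (1 + |w.im|) ^ A

private theorem Pg_mul {a b : ℝ} {f g : ℂ → ℂ} (hf : Pg a b f) (hg : Pg a b g) :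
    Pg a b fun w => f w * g w := by
  obtain ⟨A, C, hA, hC, h⟩ := hf
  obtain ⟨A', C', hA', hC', h'⟩ := hg
  refine ⟨A + A', C * C', by linarith, by positivity, fun w h1 h2 => ?_⟩
  have h0 : (0 : ℝ) < 1 + |w.im| := by positivity
  rw [norm_mul, Real.rpow_add h0]
  calc ‖f w‖ * ‖g w‖ ≤ (C * (1 + |w.im|) ^ A) * (C' * (1 + |w.im|) ^ A') :=
        mul_le_mul (h w h1 h2) (h' w h1 h2) (norm_nonneg _) (by positivity)
    _ = _ := by ring

private theorem Pg_add {a b : ℝ} {f g : ℂ → ℂ} (hf : Pg a b f) (hg : Pg a b g) :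
    Pg a b fun w => f w + g w := by
  obtain ⟨A, C, hA, hC, h⟩ := hf
  obtain ⟨A', C', hA', hC', h'⟩ := hg
  refine ⟨A + A', C + C', by linarith, by positivity, fun w h1 h2 => ?_⟩
  have h0 : (1 : ℝ) ≤ 1 + |w.im| := by
    have := abs_nonneg w.im
    linarith
  have e1 : (1 + |w.im|) ^ A ≤ (1 + |w.im|) ^ (A + A') :=
    Real.rpow_le_rpow_of_exponent_le h0 (by linarith)
  have e2 : (1 + |w.im|) ^ A' ≤ (1 + |w.im|) ^ (A + A') :=
    Real.rpow_le_rpow_of_exponent_le h0 (by linarith)
  calc ‖f w + g w‖ ≤ ‖f w‖ + ‖g w‖ := norm_add_le _ _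
    _ ≤ C * (1 + |w.im|) ^ A + C' * (1 + |w.im|) ^ A' := add_le_add (h w h1 h2) (h' w h1 h2)
    _ ≤ C * (1 + |w.im|) ^ (A + A') + C' * (1 + |w.im|) ^ (A + A') :=
        add_le_add (mul_le_mul_of_nonneg_left e1 hC) (mul_le_mul_of_nonneg_left e2 hC')
    _ = _ := by ring

private theorem Pg_const (a b : ℝ) (c : ℂ) : Pg a b fun _ => c :=
  ⟨0, ‖c‖, le_rfl, norm_nonneg _, fun w _ _ => by simp⟩

private theorem Pg_id (a b : ℝ) : Pg a b fun w => w := by
  refine ⟨1, |a| + |b| + 1, zero_le_one, by positivity, fun w h1 h2 => ?_⟩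
  rw [Real.rpow_one]
  have h3 := Complex.norm_le_abs_re_add_abs_im w
  have h4 : |w.re| ≤ |a| + |b| := by
    rw [abs_le]
    constructor
    · have := neg_abs_le a
      have := abs_nonneg b
      linarith
    · have := le_abs_self b
      have := abs_nonneg a
      linarith
  have h5 := abs_nonneg w.im
  have h6 := abs_nonneg a
  have h7 := abs_nonneg b
  nlinarith

private theorem Pg_sum {ι : Type} {a b : ℝ} (s : Finset ι) {f : ι → ℂ → ℂ}
    (h : ∀ i ∈ s, Pg a b (f i)) : Pg a b fun w => ∑ i ∈ s, f i w := by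
  classical
  induction s using Finset.induction_on with
  | empty => simpa using Pg_const a b 0
  | insert i s hi ih =>
    have h1 := Pg_add (h i (Finset.mem_insert_self i s))
      (ih fun j hj => h j (Finset.mem_insert_of_mem hj))
    simpa only [Finset.sum_insert hi] using h1

private theorem Pg_prod {ι : Type} {a b : ℝ} (s : Finset ι) {f : ι → ℂ → ℂ}
    (h : ∀ i ∈ s, Pg a b (f i)) : Pg a b fun w => ∏ i ∈ s, f i w := by
  classical
  induction s using Finset.induction_on with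
  | empty => simpa using Pg_const a b 1
  | insert i s hi ih =>
    have h1 := Pg_mul (h i (Finset.mem_insert_self i s))
      (ih fun j hj => h j (Finset.mem_insert_of_mem hj))
    simpa only [Finset.prod_insert hi] using h1

private theorem Pg_pow {a b : ℝ} {f : ℂ → ℂ} (h : Pg a b f) (n : ℕ) : Pg a b fun w => f w ^ n := by
  have h1 := Pg_prod (Finset.range n) (f := fun _ => f) fun _ _ => h
  simpa using h1

private theorem Pg_pol (a b : ℝ) (P : Polynomial ℂ) : Pg a b fun w => P.eval w := by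
  simp only [Polynomial.eval_eq_sum_range]
  exact Pg_sum _ fun i _ => Pg_mul (Pg_const a b _) (Pg_pow (Pg_id a b) i)

/-! ### Fourier inversion -/

private theorem four {G : Type} [Group G] [Fintype G] [DecidableEq G] (β : G → G → ℂ)
    (hmul : ∀ g h k, β (g * h) k = β g k * β h k) (hcomm : ∀ g h, β g h = β h g)
    (hsum : ∀ g, g ≠ 1 → ∑ b, β b g = 0) (h1 : ∀ g, β g 1 = 1) (hsq : ∀ g : G, g * g = 1)
    (Γ N : G → ℂ) (P : ℂ) (hΓ : ∀ b, Γ b * N b = P) (z h : G) :
    ∑ g, (((Fintype.card G : ℂ) ^ 2)⁻¹ * ∑ b, β (g * z) b * N b) *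
      (∑ b, β (g * h * z) b * Γ b) = if h = 1 then P else 0 := by
  have hc : (Fintype.card G : ℂ) ≠ 0 := Nat.cast_ne_zero.2 Fintype.card_ne_zero
  have hs : ∀ k : G, ∑ g, β (g * z) k = if k = 1 then (Fintype.card G : ℂ) else 0 := by
    intro k
    have e : ∑ g, β (g * z) k = ∑ g, β g k :=
      Equiv.sum_comp (Equiv.mulRight z) (fun g => β g k)
    rw [e]
    split_ifs with hk
    · subst hk
      simp [h1]
    · exact hsum k hk
  have hmulr : ∀ g b b', β g b * β g b' = β g (b * b') := fun g b b' => by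
    rw [hcomm g (b * b'), hmul, hcomm b g, hcomm b' g]
  have mul_comm' : ∀ a b : G, a * b = b * a := by
    intro a b
    calc a * b = a * (a * b * (a * b)) * b := by rw [hsq (a * b), mul_one]
      _ = (a * a) * (b * a) * (b * b) := by simp only [mul_assoc]
      _ = b * a := by rw [hsq a, hsq b, one_mul, mul_one]
  have hbb : ∀ b b' : G, b * b' = 1 ↔ b = b' := by
    intro b b'
    constructor
    · intro h
      calc b = b * (b' * b') := by rw [hsq b', mul_one]
        _ = b * b' * b' := by rw [mul_assoc]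
        _ = b' := by rw [h, one_mul]
    · rintro rfl
      exact hsq b
  have key : ∀ b b', ∑ g, β (g * z) b * β (g * h * z) b' =
      if b = b' then β h b * (Fintype.card G : ℂ) else 0 := by
    intro b b'
    have e0 : ∀ g, β (g * z) b * β (g * h * z) b' = β h b' * β (g * z) (b * b') := by
      intro g
      have e : g * h * z = h * (g * z) := by rw [mul_comm' g h, mul_assoc]
      rw [e, hmul h, ← hmulr]
      ring
    rw [Finset.sum_congr rfl fun g _ => e0 g, ← Finset.mul_sum, hs]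
    by_cases hb : b = b'
    · rw [if_pos ((hbb b b').2 hb), if_pos hb, hb]
    · rw [if_neg (fun h => hb ((hbb b b').1 h)), if_neg hb, mul_zero]
  have e1 : ∀ g, (((Fintype.card G : ℂ) ^ 2)⁻¹ * ∑ b, β (g * z) b * N b) *
      (∑ b, β (g * h * z) b * Γ b) = ∑ b, ∑ b', ((Fintype.card G : ℂ) ^ 2)⁻¹ * (N b * Γ b') *
        (β (g * z) b * β (g * h * z) b') := by
    intro g
    rw [mul_assoc, Finset.sum_mul_sum, Finset.mul_sum]
    refine Finset.sum_congr rfl fun b _ => ?_
    rw [Finset.mul_sum]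
    exact Finset.sum_congr rfl fun b' _ => by ring
  rw [Finset.sum_congr rfl fun g _ => e1 g, Finset.sum_comm]
  have e2 : ∀ b, ∑ g, ∑ b', ((Fintype.card G : ℂ) ^ 2)⁻¹ * (N b * Γ b') *
      (β (g * z) b * β (g * h * z) b') = (Fintype.card G : ℂ)⁻¹ * P * β b h := by
    intro b
    rw [Finset.sum_comm]
    have e3 : ∀ b', ∑ g, ((Fintype.card G : ℂ) ^ 2)⁻¹ * (N b * Γ b') *
        (β (g * z) b * β (g * h * z) b') = if b = b' then
          ((Fintype.card G : ℂ) ^ 2)⁻¹ * (N b * Γ b') * (β h b * (Fintype.card G : ℂ)) else 0 := by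
      intro b'
      rw [← Finset.mul_sum, key]
      split_ifs
      · rfl
      · rw [mul_zero]
    rw [Finset.sum_congr rfl fun b' _ => e3 b', Finset.sum_ite_eq, if_pos (Finset.mem_univ b),
      mul_comm (N b), hΓ b, hcomm h b]
    field_simp
  rw [Finset.sum_congr rfl fun b _ => e2 b, ← Finset.mul_sum]
  split_ifs with hh
  · subst hh
    rw [Finset.sum_congr rfl fun b _ => h1 b]
    simp only [Finset.sum_const, Finset.card_univ, nsmul_eq_mul, mul_one]
    field_simp
  · rw [hsum h hh, mul_zero]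

open Classical in
theorem M_inv_x {T1 : Finset ℕ} {S' : Finset (HeightOneSpectrum (𝓞 K))} (hS' : Nic T1 S')
    (v0 : HeightOneSpectrum (𝓞 K)) (hv0 : v0 ∉ S') {e p : Kˣ} (he : uK v0 e = -1)
    (hp : Odd (ordK v0 p)) {z1 : Kˣ} (hz1 : uK v0 z1 = -1) :
    ∀ X : ℝ, 0 < X → ∃ (P : Polynomial ℂ) (Nf : GS (insert v0 S') → ℂ → ℂ), P ≠ 0 ∧
    (∀ g, DifferentiableOn ℂ (Nf g) {w : ℂ | -X < w.re ∧ w.re < 0}) ∧
    (∀ (g : GS (insert v0 S')) (a' b : ℝ), -X < a' → b < 0 → ∃ A C : ℝ, 0 ≤ A ∧ 0 ≤ C ∧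
      ∀ w : ℂ, a' ≤ w.re → w.re ≤ b → ‖Nf g w‖ ≤ C * (1 + |w.im|) ^ A) ∧
    ∀ h ∈ Hv (insert v0 S') v0, ∀ w : ℂ, -X < w.re → w.re < 0 →
      (letI : Fintype (GS (insert v0 S')) := Fintype.ofFinite _
      ∑ g : GS (insert v0 S'), (if g ∈ Hv (insert v0 S') v0 then
        Nf g w * Mc (insert v0 S') (g * h * QuotientGroup.mk z1) w else 0)) =
          if h = 1 then P.eval w else 0 := by
  intro X hX
  have h2 : (2 : 𝓞 K) ∉ v0.asIdeal := nic_two hS' v0 hv0
  let i1 : Fintype (GS (insert v0 S')) := Fintype.ofFinite _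
  let i2 : Fintype (GS S') := Fintype.ofFinite _
  choose P N hP hNd hNb hPN using fun b : GS S' => GamX_inv S' (Quotient.out b) X hX
  obtain ⟨Nr, hrd, hrb, hr⟩ := loc_inv (two_le_nrm v0)
  have hle : Pool.Agent.QD.HSub (insert v0 S') ≤ Pool.Agent.QD.HSub S' :=
    fun x hx => HSub_mono (Finset.subset_insert v0 S') hx
  obtain ⟨m, hm⟩ : ∃ m : GS (insert v0 S') →* GS S', ∀ x : Kˣ,
      m (QuotientGroup.mk x) = QuotientGroup.mk x :=
    ⟨QuotientGroup.map _ _ (MonoidHom.id Kˣ) hle, fun x => rfl⟩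
  have hv : v0 ∈ insert v0 S' := Finset.mem_insert_self v0 S'
  have hinj : ∀ g ∈ Hv (insert v0 S') v0, ∀ g' ∈ Hv (insert v0 S') v0, m g = m g' → g = g' := by
    intro g hg g' hg' hgg
    induction g using QuotientGroup.induction_on with
    | H x =>
      induction g' using QuotientGroup.induction_on with
      | H y =>
        rw [mem_Hv hv] at hg hg'
        rw [hm, hm, mk_eq_iff] at hgg
        rw [mk_eq_iff]
        refine ⟨fun v hv' => ?_, hgg.2⟩
        rcases Finset.mem_insert.1 hv' with rfl | hv'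
        · exact LSq_div hg hg'
        · exact hgg.1 v hv'
  have hsurj : ∀ g' : GS S', ∃ g ∈ Hv (insert v0 S') v0, m g = g' := by
    intro g'
    induction g' using QuotientGroup.induction_on with
    | H x =>
      obtain ⟨z, hz1, hz2⟩ := weak_approx S' v0 hv0 x 1
      refine ⟨QuotientGroup.mk z, ?_, ?_⟩
      · rw [mem_Hv hv]
        rwa [div_one] at hz2
      · rw [hm, mk_eq_iff]
        exact hz1
  obtain ⟨z, hz⟩ : ∃ z : GS S', z = QuotientGroup.mk z1 := ⟨_, rfl⟩
  obtain ⟨N', hN'⟩ : ∃ N' : GS S' → ℂ → ℂ, N' = fun b w => N b w *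
      ∏ b' ∈ Finset.univ.erase b, (P b').eval w := ⟨_, rfl⟩
  refine ⟨∏ b, P b, fun g w => (((Fintype.card (GS S') : ℂ) ^ 2)⁻¹ *
    ∑ b, Bc S' (m g * z) b * N' b w) * Nr w, ?_, ?_, ?_, ?_⟩
  · exact Finset.prod_ne_zero_iff.2 fun b _ => hP b
  · intro g
    refine DifferentiableOn.mul (DifferentiableOn.const_mul (DifferentiableOn.fun_sum fun b _ =>
      DifferentiableOn.const_mul ?_ _) _) (hrd.mono fun w hw => hw.2)
    rw [hN']
    refine (hNd b).mul (DifferentiableOn.fun_finsetProd fun b' _ => ?_)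
    exact (P b').differentiable.differentiableOn
  · intro g a' b ha hb
    refine Pg_mul (f := fun w => ((Fintype.card (GS S') : ℂ) ^ 2)⁻¹ *
      ∑ b, Bc S' (m g * z) b * N' b w) (Pg_mul (Pg_const _ _ _) (Pg_sum _ fun c _ =>
      Pg_mul (Pg_const _ _ _) ?_)) (hrb a' b hb)
    rw [hN']
    exact Pg_mul (f := fun w => N c w) (hNb c a' b ha hb) (Pg_prod _ fun b' _ => Pg_pol a' b (P b'))
  · intro h hh w hw1 hw2
    obtain ⟨r, hrdef⟩ : ∃ r : ℂ, r = ((Real.sqrt (nrm v0) : ℝ) : ℂ) *
      (1 + (nrm v0 : ℂ) ^ (w - 3 / 2)) * ph (nrm v0) w := ⟨_, rfl⟩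
    have hr' : r * Nr w = 1 := by
      rw [hrdef]
      exact hr w hw2
    have hM : ∀ g ∈ Hv (insert v0 S') v0, Mc (insert v0 S') (g * h * QuotientGroup.mk z1) w =
        (∑ b, Bc S' (m g * m h * z) b * GamX S' (Quotient.out b) w) * r := by
      intro g hg
      induction g using QuotientGroup.induction_on with
      | H x =>
        induction h using QuotientGroup.induction_on with
        | H y =>
          rw [mem_Hv hv] at hg hh
          have hu : uK v0 (x * y * z1) = -1 := by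
            rw [mul_comm (x * y) z1, uK_mul_of_LSq1 (LSq1_of_LSq (LSq_mul hg hh)), hz1]
          rw [hm, hm, hz, hrdef, ← m0_e v0 h2 he hp hu hw2]
          exact M_split v0 he hp hS' hv0 (x * y * z1) w
    have hPN' : ∀ b : GS S', GamX S' (Quotient.out b) w * N' b w = (∏ b, P b).eval w := by
      intro b
      rw [hN', Polynomial.eval_prod, ← Finset.mul_prod_erase Finset.univ _ (Finset.mem_univ b),
        ← hPN b w hw1 hw2]
      ring
    have hsq : ∀ g : GS S', g * g = 1 := by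
      intro g
      induction g using QuotientGroup.induction_on with
      | H x =>
        have e : (QuotientGroup.mk x : GS S') * QuotientGroup.mk x = QuotientGroup.mk (x ^ 2) := by
          rw [pow_two]
          rfl
        rw [e, QuotientGroup.eq_one_iff]
        exact sq_mem_HSub S' x
    have hsum : ∀ g : GS S', g ≠ 1 → ∑ b : GS S', Bc S' b g = 0 := fun g hg => sum_Bc hS' g hg
    have hmul : ∀ g h k : GS S', Bc S' (g * h) k = Bc S' g k * Bc S' h k := Bc_mul hS'
    have hcomm : ∀ g h : GS S', Bc S' g h = Bc S' h g := Bc_comm hS'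
    have hone : ∀ g : GS S', Bc S' g 1 = 1 := Bc_one_right hS'
    have key := four (Bc S') hmul hcomm hsum hone hsq (fun b => GamX S' (Quotient.out b) w)
      (fun b => N' b w) ((∏ b, P b).eval w) hPN' z (m h)
    · have hh1 : m h = 1 ↔ h = 1 := by
        constructor
        · intro h3
          exact hinj h hh 1 (Subgroup.one_mem _) (by rw [h3, map_one])
        · rintro rfl
          exact map_one m
      have e0 : (∑ g : GS (insert v0 S'), (if g ∈ Hv (insert v0 S') v0 then
          ((((Fintype.card (GS S') : ℂ) ^ 2)⁻¹ * ∑ b, Bc S' (m g * z) b * N' b w) * Nr w) *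
            Mc (insert v0 S') (g * h * QuotientGroup.mk z1) w else 0)) =
          if m h = 1 then (∏ b, P b).eval w else 0 := by
        rw [← key, ← Finset.sum_filter]
        refine Finset.sum_nbij m (fun _ _ => Finset.mem_univ _) ?_ ?_ ?_
        · intro g hg g' hg' hgg
          exact hinj g (Finset.mem_filter.1 hg).2 g' (Finset.mem_filter.1 hg').2 hgg
        · intro g' _
          obtain ⟨g, hg, hgg⟩ := hsurj g'
          exact ⟨g, Finset.mem_coe.2 (Finset.mem_filter.2 ⟨Finset.mem_univ g, hg⟩), hgg⟩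
        · intro g hg
          rw [hM g (Finset.mem_filter.1 hg).2]
          linear_combination ((((Fintype.card (GS S') : ℂ) ^ 2)⁻¹ *
            ∑ b, Bc S' (m g * z) b * N' b w) *
            (∑ b, Bc S' (m g * m h * z) b * GamX S' (Quotient.out b) w)) * hr'
      simp only [hh1] at e0
      exact e0

end Pool.Agent.LD
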