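import Pool.Agent.LD.A.Main
import Pool.Agent.LD.I.Inst
import Pool.Agent.LD.I.Ord
import Pool.Agent.QD.F.Ord
import Pool.Agent.QD.F.Quot
import Pool.Agent.QD.F.Growth

/-!
# LD/I-Fin: analytic descent from the quadratic extensions in which `v0` does not split

PLAN.  `hM` gives `f, g` (see QD/F/Descent.lean).  `inst0` and `t16` give `S, e, p, R, F`; `ord_half` gives
`ord g z ≤ ord f z` for `Re z > 1/2`, except possibly when `a^2 = 4 q`, `Re z = 3/2`, where `hedge` is used.  `ord_left`
(QD/F/Ord.lean) gives it for `Re z < 1`.  Then `entire_quot`, `finOrd_quot` and the functional equation exactly as at the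
end of `descent` (QD/F/Descent.lean, copy).
-/

namespace Pool.Agent.LD

open NumberField IsDedekindDomain Pool.Agent.HWR Pool.Agent.QD

theorem descent_v0 (K : Type) [Field K] [NumberField K] (T : Finset ℕ) (hTp : ∀ p ∈ T, p.Prime)
    (hT : ∀ p : ℕ, p.Prime → p < 101 → p ∈ T) (D : LocData T) (a : ℕ → ℝ)
    (ha : ∀ q : ℕ, |a q| ≤ 2 * Real.sqrt q) (ha2 : SqRel K T a)
    (v0 : HeightOneSpectrum (𝓞 K)) (hv0 : Away K T v0) (H : HWq D a v0)
    (hedge : a (nrm v0) ^ 2 = 4 * (nrm v0 : ℝ) → ∀ f g : ℂ → ℂ, Differentiable ℂ f →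
      Differentiable ℂ g → (∀ s : ℂ, 3 / 2 < s.re → g s ≠ 0) →
      (∀ s : ℂ, 3 / 2 < s.re → g s * D.Lam a K s = f s) → ∀ z : ℂ, z.re = 3 / 2 →
        analyticOrderAt g z ≤ analyticOrderAt f z + 1 → analyticOrderAt g z ≤ analyticOrderAt f z)
    (hM : D.MER a K) : D.HW a K := by
  obtain ⟨f, g, hf, hg, hfo, hgo, hgne, ⟨c, hc, k0, hlow⟩, hfg, hfe⟩ := hM
  have hg0 : ∃ s, g s ≠ 0 := ⟨2, hgne 2 (by norm_num)⟩
  have hw := w_ne K T D
  obtain ⟨S, Hs, e, p, F, hS, hG, hL, hF, hLs⟩ := inst0 K T hTp hT D a ha ha2 v0 hv0 H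
  obtain ⟨R, F2, hR, hFd, hFe⟩ := t16 hS hG hL
  have hhalf := ord_half K T hTp hT D a ha hf hg hgne hfg S F hF hLs hL.hq hR hFd hFe
  have hright : ∀ z : ℂ, 1 / 2 < z.re → analyticOrderAt g z ≤ analyticOrderAt f z := by
    intro z hz
    rcases hhalf z hz with h | ⟨h1, h2, h3⟩
    · exact h
    · exact hedge h1 f g hf hg hgne hfg z h2 h3
  have hleft := ord_left hf hg hg0 hw hfe (fun z hz => hright z (by linarith))
  have hall : ∀ z : ℂ, analyticOrderAt g z ≤ analyticOrderAt f z := by
    intro z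
    rcases lt_or_ge z.re 1 with h | h
    · exact hleft z h
    · exact hright z (by linarith)
  obtain ⟨h, hh, hfgh⟩ := entire_quot hf hg hg0 hall
  have hord := finOrd_quot hf hg hh hfo hgo hfgh hc hlow
  refine ⟨h, hh, hord, ?_, ?_⟩
  · -- functional equation
    have key : ∀ s : ℂ, g s * g (2 - s) * (h s - D.w K * h (2 - s)) = 0 := by
      intro s
      have e1 := hfe s
      rw [hfgh s, hfgh (2 - s)] at e1
      linear_combination e1
    have han : AnalyticOnNhd ℂ (fun s : ℂ => g s * g (2 - s)) Set.univ := by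
      have : Differentiable ℂ (fun s : ℂ => g s * g (2 - s)) := by fun_prop
      exact this.differentiableOn.analyticOnNhd isOpen_univ
    have han2 : AnalyticOnNhd ℂ (fun s : ℂ => h s - D.w K * h (2 - s)) Set.univ := by
      have : Differentiable ℂ (fun s : ℂ => h s - D.w K * h (2 - s)) := by fun_prop
      exact this.differentiableOn.analyticOnNhd isOpen_univ
    rcases AnalyticOnNhd.eq_zero_or_eq_zero_of_mul_eq_zero han han2 (fun z _ => key z)
      isPreconnected_univ with h1 | h1
    · exfalso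
      have a1 : AnalyticOnNhd ℂ g Set.univ := hg.differentiableOn.analyticOnNhd isOpen_univ
      have a2 : AnalyticOnNhd ℂ (fun s : ℂ => g (2 - s)) Set.univ := by
        have : Differentiable ℂ (fun s : ℂ => g (2 - s)) := by fun_prop
        exact this.differentiableOn.analyticOnNhd isOpen_univ
      rcases AnalyticOnNhd.eq_zero_or_eq_zero_of_mul_eq_zero a1 a2 h1
        isPreconnected_univ with h2 | h2
      · exact hgne 2 (by norm_num) (h2 2 (Set.mem_univ _))
      · refine hgne 2 (by norm_num) ?_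
        have := h2 0 (Set.mem_univ _)
        simpa using this
    · intro s
      have := h1 s (Set.mem_univ _)
      linear_combination this
  · intro s hs
    have e1 := hfg s hs
    rw [hfgh s] at e1
    exact (mul_left_cancel₀ (hgne s hs) e1).symm

end Pool.Agent.LD
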