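import Pool.Agent.HWR.Defs

/-!
# LD/I-GInvA: the quotient of gamma factors on the lines `Re s = n + 1/2`

Induction on `n`: for `n = 1` the points `2 - s` and `s - 1` are conjugate; the step uses the functional
equation of the gamma function at `s - 1` and at `2 - s`, whose moduli are at least `1 / 2`.
-/

namespace Pool.Agent.LD

open Pool.Agent.HWR

private theorem gbound (n : ℕ) (hn : 1 ≤ n) : ∀ s : ℂ, s.re = n + 1 / 2 →
    ‖Complex.Gamma (2 - s)‖ ≤ 2 ^ n * ‖Complex.Gamma s‖ := by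
  induction n, hn using Nat.le_induction with
  | base =>
    intro s hs
    have hs' : s.re = 3 / 2 := by rw [hs]; norm_num
    have h1 : (s - 1).re = 1 / 2 := by
      rw [Complex.sub_re, hs', Complex.one_re]; norm_num
    have h0 : s - 1 ≠ 0 := by
      intro h
      rw [h, Complex.zero_re] at h1
      norm_num at h1
    have h2 : Complex.Gamma s = (s - 1) * Complex.Gamma (s - 1) := by
      have := Complex.Gamma_add_one (s - 1) h0
      rwa [sub_add_cancel] at this
    have h3 : 2 - s = (starRingEnd ℂ) (s - 1) := by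
      apply Complex.ext
      · rw [Complex.conj_re, h1, Complex.sub_re, hs']; norm_num
      · rw [Complex.conj_im, Complex.sub_im, Complex.sub_im, Complex.one_im]
        norm_num
    have h4 : 1 / 2 ≤ ‖s - 1‖ := by
      have := Complex.re_le_norm (s - 1)
      rwa [h1] at this
    rw [h3, Complex.Gamma_conj, Complex.norm_conj, h2, norm_mul, pow_one]
    have := norm_nonneg (Complex.Gamma (s - 1))
    nlinarith
  | succ n hn ih =>
    intro s hs
    have hn' : (1 : ℝ) ≤ n := by exact_mod_cast hn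
    have hs' : s.re = n + 3 / 2 := by rw [hs]; push_cast; ring
    have h1 : (s - 1).re = n + 1 / 2 := by
      rw [Complex.sub_re, hs', Complex.one_re]; ring
    have h0 : s - 1 ≠ 0 := by
      intro h
      rw [h, Complex.zero_re] at h1
      linarith
    have h2 : Complex.Gamma s = (s - 1) * Complex.Gamma (s - 1) := by
      have := Complex.Gamma_add_one (s - 1) h0
      rwa [sub_add_cancel] at this
    have h3 : (2 - s).re = 1 / 2 - n := by
      rw [Complex.sub_re, hs', Complex.re_ofNat]; ring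
    have h4 : 2 - s ≠ 0 := by
      intro h
      rw [h, Complex.zero_re] at h3
      linarith
    have h5 : Complex.Gamma (2 - (s - 1)) = (2 - s) * Complex.Gamma (2 - s) := by
      have := Complex.Gamma_add_one (2 - s) h4
      rwa [show 2 - s + 1 = 2 - (s - 1) by ring] at this
    have h6 : 1 / 2 ≤ ‖2 - s‖ := by
      have := Complex.abs_re_le_norm (2 - s)
      rw [h3, abs_of_nonpos (by linarith)] at this
      linarith
    have h7 : 1 ≤ ‖s - 1‖ := by
      have := Complex.re_le_norm (s - 1)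
      rw [h1] at this
      linarith
    have h8 := ih (s - 1) h1
    rw [h5, norm_mul] at h8
    rw [h2, norm_mul]
    have h9 := norm_nonneg (Complex.Gamma (2 - s))
    have h10 := norm_nonneg (Complex.Gamma (s - 1))
    have h11 : ‖Complex.Gamma (s - 1)‖ ≤ ‖s - 1‖ * ‖Complex.Gamma (s - 1)‖ := by nlinarith
    have h12 : (0 : ℝ) ≤ 2 ^ n := by positivity
    have h13 : 1 / 2 * ‖Complex.Gamma (2 - s)‖ ≤ ‖2 - s‖ * ‖Complex.Gamma (2 - s)‖ :=
      mul_le_mul_of_nonneg_right h6 h9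
    have h14 := mul_le_mul_of_nonneg_left h11 h12
    rw [pow_succ]
    linarith

theorem gam1_inv_line (n : ℕ) (hn : 1 ≤ n) : ∃ C : ℝ, 0 ≤ C ∧ ∀ s : ℂ, s.re = n + 1 / 2 →
    gam1 s ≠ 0 ∧ gam1 (2 - s) ≠ 0 ∧ ‖gam1 (2 - s) * (gam1 s)⁻¹‖ ≤ C := by
  have hpi : (0 : ℝ) < 2 * Real.pi := by positivity
  have hcast : ((2 : ℂ) * (Real.pi : ℂ)) = ((2 * Real.pi : ℝ) : ℂ) := by push_cast; ring
  refine ⟨(2 * Real.pi) ^ ((2 : ℝ) * n - 1) * 2 ^ n, by positivity, ?_⟩
  intro s hs
  have hn' : (1 : ℝ) ≤ n := by exact_mod_cast hn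
  have g1 : Complex.Gamma s ≠ 0 := Complex.Gamma_ne_zero_of_re_pos (by rw [hs]; linarith)
  have g2 : Complex.Gamma (2 - s) ≠ 0 := by
    apply Complex.Gamma_ne_zero
    intro m hm
    have h1 : (2 - s).re = -(m : ℝ) := by rw [hm]; simp
    rw [Complex.sub_re, hs, Complex.re_ofNat] at h1
    have h2 : (3 : ℝ) + 2 * m = 2 * n := by linarith
    have h3 : 3 + 2 * m = 2 * n := by exact_mod_cast h2
    omega
  have p0 : ∀ z : ℂ, (((2 * Real.pi : ℝ) : ℂ)) ^ (-z) ≠ 0 := by
    intro z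
    rw [Ne, Complex.cpow_eq_zero_iff]
    rintro ⟨h, _⟩
    exact hpi.ne' (Complex.ofReal_eq_zero.1 h)
  have key : gam1 s = ((2 * Real.pi : ℝ) : ℂ) ^ (-s) * Complex.Gamma s ∧
      gam1 (2 - s) = ((2 * Real.pi : ℝ) : ℂ) ^ (-(2 - s)) * Complex.Gamma (2 - s) := by
    unfold gam1
    constructor
    · push_cast; rfl
    · push_cast; rfl
  rw [key.1, key.2]
  refine ⟨mul_ne_zero (p0 _) g1, mul_ne_zero (p0 _) g2, ?_⟩
  rw [norm_mul, norm_mul, norm_inv, norm_mul, Complex.norm_cpow_eq_rpow_re_of_pos hpi,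
    Complex.norm_cpow_eq_rpow_re_of_pos hpi, mul_inv]
  have hg := gbound n hn s hs
  have hg1 : 0 < ‖Complex.Gamma s‖ := norm_pos_iff.2 g1
  have e1 : (2 * Real.pi) ^ (-(2 - s)).re * ((2 * Real.pi) ^ (-s).re)⁻¹ =
      (2 * Real.pi) ^ ((2 : ℝ) * n - 1) := by
    rw [← Real.rpow_neg hpi.le, ← Real.rpow_add hpi]
    congr 1
    rw [Complex.neg_re, Complex.neg_re, Complex.sub_re, hs, Complex.re_ofNat]
    ring
  have e2 : ‖Complex.Gamma (2 - s)‖ * ‖Complex.Gamma s‖⁻¹ ≤ 2 ^ n := by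
    rw [← div_eq_mul_inv, div_le_iff₀ hg1]
    exact hg
  calc (2 * Real.pi) ^ (-(2 - s)).re * ‖Complex.Gamma (2 - s)‖ *
        (((2 * Real.pi) ^ (-s).re)⁻¹ * ‖Complex.Gamma s‖⁻¹) =
      ((2 * Real.pi) ^ (-(2 - s)).re * ((2 * Real.pi) ^ (-s).re)⁻¹) *
        (‖Complex.Gamma (2 - s)‖ * ‖Complex.Gamma s‖⁻¹) := by ring
    _ ≤ (2 * Real.pi) ^ ((2 : ℝ) * n - 1) * 2 ^ n := by
      rw [e1]
      exact mul_le_mul_of_nonneg_left e2 (by positivity)

end Pool.Agent.LD
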