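import Pool.Agent.QD.In.Gam
import Pool.Agent.QD.In.GamL
import Pool.Agent.QD.In.Strip

/-!
# LD/I-GRC: the inverses of `gR` and `gC`, up to a polynomial

`(Γ_ℝ s)⁻¹ = (Γ_ℝ (s + 2))⁻¹ s / (2π)` holds everywhere.  For `2 k > X + 1` this gives
`gR w * gR (1 - w - 2 k) = ∏_{j<k} (w + 2 j) (1 - w - 2 k + 2 j) / (2π)²` for `-X < Re w < 1`, so
`N w = gR (1 - w - 2 k)`, which is holomorphic for `-X < Re w` and of polynomial growth by `gR_bd`.
The same for `gC` with steps of length one.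
-/

namespace Pool.Agent.LD

open Pool.Agent.QD Pool.Agent.QD.In

private theorem step_iter {G : ℂ → ℂ} {c : ℕ}
    (hstep : ∀ s : ℂ, (G s)⁻¹ = (G (s + c))⁻¹ * (s / (2 * Real.pi))) (k : ℕ) (s : ℂ) :
    (G s)⁻¹ = (G (s + (k * c : ℕ)))⁻¹ *
      ∏ j ∈ Finset.range k, ((s + (j * c : ℕ)) / (2 * Real.pi)) := by
  induction k with
  | zero => simp
  | succ k ih =>
    rw [ih, Finset.prod_range_succ, hstep (s + (k * c : ℕ))]
    have h1 : s + (k * c : ℕ) + (c : ℂ) = s + ((k + 1) * c : ℕ) := by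
      push_cast
      ring
    rw [h1]
    ring

private theorem inv_aux {G g : ℂ → ℂ} {c : ℕ} (hc : 1 ≤ c)
    (hstep : ∀ s : ℂ, (G s)⁻¹ = (G (s + c))⁻¹ * (s / (2 * Real.pi)))
    (hg : ∀ w, g w = G (1 - w) * (G w)⁻¹) (hG : ∀ s : ℂ, 0 < s.re → G s ≠ 0)
    (hd : ∀ w : ℂ, w.re < 1 → DifferentiableAt ℂ g w) (hb : PolyStrip 0 g) (X : ℝ) :
    ∃ (P : Polynomial ℂ) (N : ℂ → ℂ), P ≠ 0 ∧
    DifferentiableOn ℂ N {w : ℂ | -X < w.re ∧ w.re < 1} ∧
    (∀ w : ℂ, -X < w.re → w.re < 1 → g w * N w = P.eval w) ∧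
    ∃ A C : ℝ, 0 ≤ A ∧ 0 ≤ C ∧ ∀ w : ℂ, -X < w.re → w.re < 0 → ‖N w‖ ≤ C * (1 + |w.im|) ^ A := by
  obtain ⟨k, hk⟩ := exists_nat_gt (X + 1)
  set K : ℕ := k * c with hK
  have hkK : (k : ℝ) ≤ K := by
    have h1 : k ≤ K := Nat.le_mul_of_pos_right k hc
    exact_mod_cast h1
  have hKX : X + 1 < K := lt_of_lt_of_le hk hkK
  have hpi : (2 * (Real.pi : ℂ)) ≠ 0 := by
    have h1 : (Real.pi : ℂ) ≠ 0 := Complex.ofReal_ne_zero.2 Real.pi_ne_zero
    exact mul_ne_zero two_ne_zero h1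
  have hre : ∀ w : ℂ, (1 - w - (K : ℕ)).re = 1 - w.re - K := by
    intro w
    rw [Complex.sub_re, Complex.sub_re, Complex.one_re, Complex.natCast_re]
  have him : ∀ w : ℂ, |(1 - w - (K : ℕ)).im| = |w.im| := by
    intro w
    rw [Complex.sub_im, Complex.sub_im, Complex.one_im, Complex.natCast_im, sub_zero, zero_sub,
      abs_neg]
  refine ⟨∏ j ∈ Finset.range k, (Polynomial.C (2 * (Real.pi : ℂ))⁻¹ *
      (Polynomial.X + Polynomial.C ((j * c : ℕ) : ℂ))) * (Polynomial.C (2 * (Real.pi : ℂ))⁻¹ *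
      (Polynomial.C (1 - (K : ℕ) + (j * c : ℕ) : ℂ) - Polynomial.X)),
    fun w => g (1 - w - (K : ℕ)), ?_, ?_, ?_, ?_⟩
  · refine Finset.prod_ne_zero_iff.2 fun j _ => ?_
    have h1 : (Polynomial.C (2 * (Real.pi : ℂ))⁻¹) ≠ 0 := Polynomial.C_ne_zero.2 (inv_ne_zero hpi)
    refine mul_ne_zero (mul_ne_zero h1 (Polynomial.X_add_C_ne_zero _)) (mul_ne_zero h1 ?_)
    rw [← neg_sub]
    exact neg_ne_zero.2 (Polynomial.X_sub_C_ne_zero _)
  · intro w hw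
    have h1 : (1 - w - (K : ℕ)).re < 1 := by
      rw [hre]
      linarith [hw.1]
    have h2 : DifferentiableAt ℂ (fun w : ℂ => 1 - w - (K : ℕ)) w :=
      ((differentiableAt_const _).sub differentiableAt_id).sub_const _
    exact ((hd _ h1).comp w h2).differentiableWithinAt
  · intro w h1 h2
    have h3 : G (1 - w) ≠ 0 := hG _ (by
      rw [Complex.sub_re, Complex.one_re]
      linarith)
    have h4 : G (w + (K : ℕ)) ≠ 0 := hG _ (by
      rw [Complex.add_re, Complex.natCast_re]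
      linarith)
    have h5 := step_iter hstep k w
    have h6 := step_iter hstep k (1 - w - (K : ℕ))
    rw [← hK] at h5 h6
    have h7 : 1 - w - (K : ℕ) + (K : ℕ) = 1 - w := by ring
    have h8 : 1 - (1 - w - (K : ℕ)) = w + (K : ℕ) := by ring
    rw [h7] at h6
    change g w * g (1 - w - (K : ℕ)) = _
    rw [hg, hg, h5, h6, h8, Polynomial.eval_prod]
    simp only [Polynomial.eval_mul, Polynomial.eval_C, Polynomial.eval_add, Polynomial.eval_X,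
      Polynomial.eval_sub]
    rw [Finset.prod_mul_distrib]
    have h9 : ∏ j ∈ Finset.range k, ((w + (j * c : ℕ)) / (2 * (Real.pi : ℂ))) =
        ∏ j ∈ Finset.range k, ((2 * (Real.pi : ℂ))⁻¹ * (w + (j * c : ℕ))) :=
      Finset.prod_congr rfl fun j _ => by rw [div_eq_mul_inv, mul_comm]
    have h10 : ∏ j ∈ Finset.range k, ((1 - w - (K : ℕ) + (j * c : ℕ)) / (2 * (Real.pi : ℂ))) =
        ∏ j ∈ Finset.range k, ((2 * (Real.pi : ℂ))⁻¹ * (1 - (K : ℕ) + (j * c : ℕ) - w)) :=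
      Finset.prod_congr rfl fun j _ => by
        rw [div_eq_mul_inv, mul_comm]
        ring
    rw [h9, h10]
    generalize (∏ j ∈ Finset.range k, ((2 * (Real.pi : ℂ))⁻¹ * (w + (j * c : ℕ)))) = p1
    generalize (∏ j ∈ Finset.range k,
      ((2 * (Real.pi : ℂ))⁻¹ * (1 - (K : ℕ) + (j * c : ℕ) - w))) = p2
    field_simp
  · obtain ⟨A, C, hA, hC, h1⟩ := hb (1 - K) (1 - K + X) (by linarith)
    refine ⟨A, C, hA, hC, fun w h2 h3 => ?_⟩
    have h4 := h1 (1 - w - (K : ℕ)) (by rw [hre]; linarith) (by rw [hre]; linarith)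
    rw [him] at h4
    exact h4

theorem gR_inv (X : ℝ) (hX : 0 < X) : ∃ (P : Polynomial ℂ) (N : ℂ → ℂ), P ≠ 0 ∧
    DifferentiableOn ℂ N {w : ℂ | -X < w.re ∧ w.re < 1} ∧
    (∀ w : ℂ, -X < w.re → w.re < 1 → gR w * N w = P.eval w) ∧
    ∃ A C : ℝ, 0 ≤ A ∧ 0 ≤ C ∧ ∀ w : ℂ, -X < w.re → w.re < 0 → ‖N w‖ ≤ C * (1 + |w.im|) ^ A := by
  refine inv_aux (G := Complex.Gammaℝ) (c := 2) (by norm_num) (fun s => ?_) (fun w => rfl)
    (fun s hs => Complex.Gammaℝ_ne_zero_of_re_pos hs) (fun w hw => gR_diff hw) gR_bd X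
  by_cases hs : s = 0
  · rw [hs, zero_div, mul_zero, Complex.Gammaℝ_def, zero_div, Complex.Gamma_zero, mul_zero,
      inv_zero]
  · have h1 : (Real.pi : ℂ) ≠ 0 := Complex.ofReal_ne_zero.2 Real.pi_ne_zero
    rw [Nat.cast_ofNat, Complex.Gammaℝ_add_two hs]
    by_cases h2 : Complex.Gammaℝ s = 0
    · rw [h2]
      simp
    · field_simp

theorem gC_inv (X : ℝ) (hX : 0 < X) : ∃ (P : Polynomial ℂ) (N : ℂ → ℂ), P ≠ 0 ∧
    DifferentiableOn ℂ N {w : ℂ | -X < w.re ∧ w.re < 1} ∧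
    (∀ w : ℂ, -X < w.re → w.re < 1 → gC w * N w = P.eval w) ∧
    ∃ A C : ℝ, 0 ≤ A ∧ 0 ≤ C ∧ ∀ w : ℂ, -X < w.re → w.re < 0 → ‖N w‖ ≤ C * (1 + |w.im|) ^ A := by
  refine inv_aux (G := Complex.Gammaℂ) (c := 1) le_rfl (fun s => ?_) (fun w => rfl)
    (fun s hs => ?_) (fun w hw => gC_diff hw) gC_bd X
  · by_cases hs : s = 0
    · rw [hs, zero_div, mul_zero, Complex.Gammaℂ_def, Complex.Gamma_zero, mul_zero, inv_zero]
    · have h1 : (Real.pi : ℂ) ≠ 0 := Complex.ofReal_ne_zero.2 Real.pi_ne_zero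
      rw [Nat.cast_one, Complex.Gammaℂ_add_one hs]
      by_cases h2 : Complex.Gammaℂ s = 0
      · rw [h2]
        simp
      · field_simp
  · rw [Complex.Gammaℂ_def]
    refine mul_ne_zero (mul_ne_zero two_ne_zero ?_) (Complex.Gamma_ne_zero_of_re_pos hs)
    have h1 : (2 * (Real.pi : ℂ)) ≠ 0 :=
      mul_ne_zero two_ne_zero (Complex.ofReal_ne_zero.2 Real.pi_ne_zero)
    rw [Complex.cpow_def_of_ne_zero h1]
    exact Complex.exp_ne_zero _

end Pool.Agent.LD
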