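import Pool.Agent.LD.I.GRC
import Pool.Agent.QD.In.GamX
import Pool.Agent.QD.In.V0b

/-!
# LD/I-GamInv: `GamX` is invertible up to a polynomial

PLAN.  `GamX S x w = D0^(1/2 - w) * gR w ^ nr * gC w ^ nc * ∏_{v ∈ S} zr (nrm v) (tt x v) w`.  Choose the factors
`N` of `gR_inv`, `gC_inv` to the powers `nr`, `nc`, `D0^(w - 1/2)`, and the inverses of `zr`: `zr q t w =
zf q t (1 - w) * (zf q t w)⁻¹` with `zf q t w` the Euler factor (N4Defs), so `(zr q t w)⁻¹ = zf q t w * (zf q t (1 - w))⁻¹`;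
for `Re w ≤ b < 0`: `‖1 - t' q^(-w)‖ ≥ q^(-b) - 1 > 0` for the (up to two) factors of `zf`, and `(zf q t (1-w))⁻¹` is a
polynomial in `q^(w-1)`, `|q^(w-1)| ≤ 1`; `zr_ne`, `zr_diff` (QD/In) for non vanishing and holomorphy.
The polynomial may depend on `x`; for a uniform one take the product over the finitely many classes
(done in LD/I/MInv).
-/

namespace Pool.Agent.LD

open NumberField IsDedekindDomain Pool.Agent.HWR Pool.Agent.QD Pool.Agent.QD.In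

variable {K : Type} [Field K] [NumberField K]

private theorem nrm_neg {q : ℕ} (hq : 2 ≤ q) (z : ℂ) : ‖(q : ℂ) ^ z‖ = (q : ℝ) ^ z.re :=
  Complex.norm_natCast_cpow_of_pos (by omega) z

private theorem one_lt_q {q : ℕ} (hq : 2 ≤ q) : (1 : ℝ) < q := by
  have : 1 < q := by omega
  exact_mod_cast this

private theorem q_ne {q : ℕ} (hq : 2 ≤ q) : (q : ℂ) ≠ 0 := by
  have : q ≠ 0 := by omega
  exact_mod_cast this

private theorem big {q : ℕ} (hq : 2 ≤ q) {z : ℂ} {b : ℝ} (hb : b ≤ z.re) :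
    (q : ℝ) ^ b ≤ ‖(q : ℂ) ^ z‖ := by
  rw [nrm_neg hq]
  exact Real.rpow_le_rpow_of_exponent_le (one_lt_q hq).le hb

private theorem small {q : ℕ} (hq : 2 ≤ q) {z : ℂ} {b : ℝ} (hb : z.re ≤ b) :
    ‖(q : ℂ) ^ z‖ ≤ (q : ℝ) ^ b := by
  rw [nrm_neg hq]
  exact Real.rpow_le_rpow_of_exponent_le (one_lt_q hq).le hb

private theorem big_ne {z : ℂ} (h : 1 < ‖z‖) : 1 - z ≠ 0 := by
  intro h0
  have h1 : z = 1 := (sub_eq_zero.1 h0).symm
  rw [h1, norm_one] at h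
  exact lt_irrefl _ h

private theorem small_ne {z : ℂ} (h : ‖z‖ < 1) : 1 - z ≠ 0 := by
  intro h0
  have h1 : z = 1 := (sub_eq_zero.1 h0).symm
  rw [h1, norm_one] at h
  exact lt_irrefl _ h

private theorem small_ne' {z : ℂ} (h : ‖z‖ < 1) : 1 + z ≠ 0 := by
  have h1 := small_ne (z := -z) (by rw [norm_neg]; exact h)
  rwa [sub_neg_eq_add] at h1

private theorem inv_big {z : ℂ} {Q : ℝ} (hQ : 1 < Q) (h : Q ≤ ‖z‖) :
    ‖(1 - z)⁻¹‖ ≤ (Q - 1)⁻¹ := by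
  have h1 := norm_sub_norm_le z 1
  rw [norm_one, norm_sub_rev] at h1
  rw [norm_inv]
  exact inv_anti₀ (by linarith) (by linarith)

private theorem inv_small {z : ℂ} {Q : ℝ} (hQ : Q < 1) (h : ‖z‖ ≤ Q) :
    ‖(1 + z)⁻¹‖ ≤ (1 - Q)⁻¹ := by
  have h1 := norm_sub_norm_le (1 : ℂ) (-z)
  rw [norm_one, norm_neg, sub_neg_eq_add] at h1
  rw [norm_inv]
  exact inv_anti₀ (by linarith) (by linarith)

private theorem tn {t : ℤ} (ht : t = 1 ∨ t = -1 ∨ t = 0) : ‖(t : ℂ)‖ ≤ 1 := by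
  rcases ht with h | h | h <;> rw [h] <;> norm_num

private theorem t_inv {t : ℤ} (ht : t = 1 ∨ t = -1 ∨ t = 0) {z : ℂ} {Q : ℝ} (hQ : 1 < Q)
    (h : Q ≤ ‖z‖) : ‖(1 - (t : ℂ) * z)⁻¹‖ ≤ (Q - 1)⁻¹ + 1 := by
  have h0 : 0 ≤ (Q - 1)⁻¹ := inv_nonneg.2 (by linarith)
  rcases ht with h1 | h1 | h1
  · rw [h1, Int.cast_one, one_mul]
    linarith [inv_big hQ h]
  · rw [h1, Int.cast_neg, Int.cast_one, neg_one_mul]
    have := inv_big hQ (z := -z) (by rw [norm_neg]; exact h)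
    linarith
  · rw [h1, Int.cast_zero, zero_mul, sub_zero, inv_one, norm_one]
    linarith

/-- the inverse of `zr` -/
private noncomputable def zi (q : ℕ) (t : ℤ) (w : ℂ) : ℂ := zf q t w * (zf q t (1 - w))⁻¹

private theorem zi_mul {q : ℕ} (hq : 2 ≤ q) {t : ℤ} (ht : t = 1 ∨ t = -1 ∨ t = 0) {w : ℂ}
    (hw : w.re < 0) : zr q t w * zi q t w = 1 := by
  have h0 : 0 < (1 - w).re := by
    rw [Complex.sub_re, Complex.one_re]
    linarith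
  have h1 := zf_ne hq ht h0
  have h2 := zf_ne' hq ht hw
  unfold zr zi
  calc zf q t (1 - w) * (zf q t w)⁻¹ * (zf q t w * (zf q t (1 - w))⁻¹)
      = (zf q t (1 - w) * (zf q t (1 - w))⁻¹) * (zf q t w * (zf q t w)⁻¹) := by ring
    _ = 1 := by rw [mul_inv_cancel₀ h1, mul_inv_cancel₀ h2, one_mul]

private theorem zi_diff {q : ℕ} (hq : 2 ≤ q) {t : ℤ} (ht : t = 1 ∨ t = -1 ∨ t = 0) {w : ℂ}
    (hw : w.re < 0) : DifferentiableAt ℂ (zi q t) w := by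
  have h1 : DifferentiableAt ℂ (zf q t) w := by
    have h2 : zf q t = fun w => ((zf q t w)⁻¹)⁻¹ := funext fun w => (inv_inv _).symm
    rw [h2]
    exact (zf_inv_diff hq ht w).fun_inv (inv_ne_zero (zf_ne' hq ht hw))
  have h3 : DifferentiableAt ℂ (fun w => (zf q t (1 - w))⁻¹) w :=
    (zf_inv_diff hq ht (1 - w)).comp w ((differentiableAt_const _).sub differentiableAt_id)
  exact h1.mul h3

private theorem zi_bd {q : ℕ} (hq : 2 ≤ q) {t : ℤ} (ht : t = 1 ∨ t = -1 ∨ t = 0) :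
    PolyStrip 0 (zi q t) := by
  refine ps_mul (F := fun w => zf q t w) (G := fun w => (zf q t (1 - w))⁻¹)
    (ps_of_bdd fun x y hy => ?_) (ps_of_bdd fun x y hy => ⟨2 * 2, fun w _ h => ?_⟩)
  · have hQ : 1 < (q : ℝ) ^ (-y) := Real.one_lt_rpow (one_lt_q hq) (by linarith)
    have h0 : 0 ≤ ((q : ℝ) ^ (-y) - 1)⁻¹ := inv_nonneg.2 (by linarith)
    refine ⟨((q : ℝ) ^ (-y) - 1)⁻¹ * (((q : ℝ) ^ (-y) - 1)⁻¹ + 1), fun w _ h => ?_⟩
    have h1 : (q : ℝ) ^ (-y) ≤ ‖(q : ℂ) ^ (-w)‖ := big hq (by rw [Complex.neg_re]; linarith)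
    unfold zf
    rw [norm_mul]
    exact mul_le_mul (inv_big hQ h1) (t_inv ht hQ h1) (norm_nonneg _) h0
  · have h1 : ‖(q : ℂ) ^ (-(1 - w))‖ ≤ 1 := by
      refine (small hq (b := 0) ?_).trans (by rw [Real.rpow_zero])
      rw [Complex.neg_re, Complex.sub_re, Complex.one_re]
      linarith
    have ht1 := tn ht
    have e : (zf q t (1 - w))⁻¹ =
        (1 - (q : ℂ) ^ (-(1 - w))) * (1 - (t : ℂ) * (q : ℂ) ^ (-(1 - w))) := by
      unfold zf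
      rw [mul_inv, inv_inv, inv_inv]
    rw [e, norm_mul]
    have n1 : ‖1 - (q : ℂ) ^ (-(1 - w))‖ ≤ 2 := by
      refine (norm_sub_le _ _).trans ?_
      rw [norm_one]
      linarith
    have n2 : ‖1 - (t : ℂ) * (q : ℂ) ^ (-(1 - w))‖ ≤ 2 := by
      refine (norm_sub_le _ _).trans ?_
      rw [norm_one, norm_mul]
      have := mul_le_one₀ ht1 (norm_nonneg _) h1
      linarith
    exact mul_le_mul n1 n2 (norm_nonneg _) zero_le_two

/-- cut off to the strip where the bound holds -/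
private noncomputable def cut (X : ℝ) (F : ℂ → ℂ) (w : ℂ) : ℂ :=
  open Classical in if -X < w.re then F w else 0

private theorem cut_eq {X : ℝ} {F : ℂ → ℂ} {w : ℂ} (h : -X < w.re) : cut X F w = F w := if_pos h

private theorem cut_bd {X : ℝ} {F : ℂ → ℂ} (h : ∃ A C : ℝ, 0 ≤ A ∧ 0 ≤ C ∧
    ∀ w : ℂ, -X < w.re → w.re < 0 → ‖F w‖ ≤ C * (1 + |w.im|) ^ A) :
    PolyStrip 0 (cut X F) := by
  obtain ⟨A, C, hA, hC, h⟩ := h
  intro a b hb
  refine ⟨A, C, hA, hC, fun w h1 h2 => ?_⟩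
  by_cases h3 : -X < w.re
  · rw [cut_eq h3]
    exact h w h3 (by linarith)
  · have h4 : cut X F w = 0 := if_neg h3
    rw [h4, norm_zero]
    have h5 : 0 ≤ 1 + |w.im| := by linarith [abs_nonneg w.im]
    exact mul_nonneg hC (Real.rpow_nonneg h5 _)

theorem GamX_inv (S : Finset (HeightOneSpectrum (𝓞 K))) (x : Kˣ) (X : ℝ) (hX : 0 < X) :
    ∃ (P : Polynomial ℂ) (N : ℂ → ℂ), P ≠ 0 ∧
      DifferentiableOn ℂ N {w : ℂ | -X < w.re ∧ w.re < 0} ∧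
      (∀ a b : ℝ, -X < a → b < 0 → ∃ A C : ℝ, 0 ≤ A ∧ 0 ≤ C ∧ ∀ w : ℂ, a ≤ w.re →
        w.re ≤ b → ‖N w‖ ≤ C * (1 + |w.im|) ^ A) ∧
      ∀ w : ℂ, -X < w.re → w.re < 0 → GamX S x w * N w = P.eval w := by
  obtain ⟨PR, NR, hPR, hNRd, hNRe, hNRb⟩ := gR_inv X hX
  obtain ⟨PC, NC, hPC, hNCd, hNCe, hNCb⟩ := gC_inv X hX
  have hD := D0_pos S x
  have hD0 : ((D0 S x : ℝ) : ℂ) ≠ 0 := by exact_mod_cast hD.ne'
  refine ⟨PR ^ nr x * PC ^ nc x, fun w => ((D0 S x : ℝ) : ℂ) ^ (w - 1 / 2) * NR w ^ nr x *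
    NC w ^ nc x * ∏ v ∈ S, zi (nrm v) (tt x v) w, mul_ne_zero (pow_ne_zero _ hPR)
    (pow_ne_zero _ hPC), ?_, ?_, ?_⟩
  · have hsub : {w : ℂ | -X < w.re ∧ w.re < 0} ⊆ {w : ℂ | -X < w.re ∧ w.re < 1} := by
      rintro w ⟨h1, h2⟩
      exact ⟨h1, by linarith⟩
    refine DifferentiableOn.mul (DifferentiableOn.mul (DifferentiableOn.mul ?_ ?_) ?_) ?_
    · exact fun w _ => (((differentiableAt_id.sub (differentiableAt_const _))).const_cpow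
        (Or.inl hD0)).differentiableWithinAt
    · exact (hNRd.mono hsub).pow _
    · exact (hNCd.mono hsub).pow _
    · exact DifferentiableOn.fun_finsetProd fun v _ w hw =>
        (zi_diff (two_le_nrm v) (tt_cases x v) hw.2).differentiableWithinAt
  · intro a b ha hb
    have h1 : PolyStrip 0 fun w => ((D0 S x : ℝ) : ℂ) ^ (((1 : ℝ) : ℂ) * w + ((-(1 / 2) : ℝ) : ℂ)) *
        cut X NR w ^ nr x * cut X NC w ^ nc x * ∏ v ∈ S, zi (nrm v) (tt x v) w :=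
      ps_mul (ps_mul (ps_mul (ps_cpow 0 hD 1 (-(1 / 2))) (ps_pow (cut_bd hNRb) _))
        (ps_pow (cut_bd hNCb) _)) (ps_prod S fun v _ => zi_bd (two_le_nrm v) (tt_cases x v))
    obtain ⟨A, C, hA, hC, h2⟩ := h1 a b hb
    refine ⟨A, C, hA, hC, fun w h3 h4 => ?_⟩
    have h5 := h2 w h3 h4
    have h6 : -X < w.re := by linarith
    beta_reduce at h5
    rw [cut_eq h6, cut_eq h6] at h5
    have h7 : ((1 : ℝ) : ℂ) * w + ((-(1 / 2) : ℝ) : ℂ) = w - 1 / 2 := by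
      push_cast
      ring
    rw [h7] at h5
    exact h5
  · intro w h1 h2
    have e1 := hNRe w h1 (by linarith)
    have e2 := hNCe w h1 (by linarith)
    have e3 : ((D0 S x : ℝ) : ℂ) ^ (1 / 2 - w) * ((D0 S x : ℝ) : ℂ) ^ (w - 1 / 2) = 1 := by
      rw [← Complex.cpow_add _ _ hD0, sub_add_sub_cancel', sub_self, Complex.cpow_zero]
    have e4 : (∏ v ∈ S, zr (nrm v) (tt x v) w) * ∏ v ∈ S, zi (nrm v) (tt x v) w = 1 := by
      rw [← Finset.prod_mul_distrib]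
      exact Finset.prod_eq_one fun v _ => zi_mul (two_le_nrm v) (tt_cases x v) h2
    rw [Polynomial.eval_mul, Polynomial.eval_pow, Polynomial.eval_pow, ← e1, ← e2, mul_pow, mul_pow]
    unfold GamX
    calc ((D0 S x : ℝ) : ℂ) ^ (1 / 2 - w) * gR w ^ nr x * gC w ^ nc x *
          (∏ v ∈ S, zr (nrm v) (tt x v) w) *
          (((D0 S x : ℝ) : ℂ) ^ (w - 1 / 2) * NR w ^ nr x * NC w ^ nc x *
            ∏ v ∈ S, zi (nrm v) (tt x v) w)
        = (((D0 S x : ℝ) : ℂ) ^ (1 / 2 - w) * ((D0 S x : ℝ) : ℂ) ^ (w - 1 / 2)) *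
          ((∏ v ∈ S, zr (nrm v) (tt x v) w) * ∏ v ∈ S, zi (nrm v) (tt x v) w) *
          (gR w ^ nr x * NR w ^ nr x * (gC w ^ nc x * NC w ^ nc x)) := by ring
      _ = _ := by rw [e3, e4, one_mul, one_mul]

/-- the local factor `√q (1 + q^(w-3/2)) ph q w` -/
theorem loc_inv {q : ℕ} (hq : 2 ≤ q) : ∃ N : ℂ → ℂ,
      DifferentiableOn ℂ N {w : ℂ | w.re < 0} ∧
      (∀ a b : ℝ, b < 0 → ∃ A C : ℝ, 0 ≤ A ∧ 0 ≤ C ∧ ∀ w : ℂ, a ≤ w.re →
        w.re ≤ b → ‖N w‖ ≤ C * (1 + |w.im|) ^ A) ∧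
      ∀ w : ℂ, w.re < 0 →
        (((Real.sqrt q : ℝ) : ℂ) * (1 + (q : ℂ) ^ (w - 3 / 2)) * ph q w) * N w = 1 := by
  have hq0 := q_ne hq
  have hre1 : ∀ w : ℂ, (w - 1).re = w.re - 1 := fun w => by rw [Complex.sub_re, Complex.one_re]
  have hre2 : ∀ w : ℂ, (w - 3 / 2).re = w.re - 3 / 2 := fun w => by
    rw [Complex.sub_re]
    norm_num
  have hre3 : ∀ w : ℂ, (1 / 2 - w).re = 1 / 2 - w.re := fun w => by
    rw [Complex.sub_re]
    norm_num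
  have lt1 : ∀ b : ℝ, b < 0 → (q : ℝ) ^ b < 1 := fun b hb =>
    Real.rpow_lt_one_of_one_lt_of_neg (one_lt_q hq) hb
  have n1 : ∀ w : ℂ, w.re < 0 → 1 + (q : ℂ) ^ (w - 3 / 2) ≠ 0 := fun w hw =>
    small_ne' ((small hq (b := -1) (by rw [hre2]; linarith)).trans_lt (lt1 _ (by norm_num)))
  have n2 : ∀ w : ℂ, w.re < 0 → 1 - (q : ℂ) ^ (-w) ≠ 0 := fun w hw =>
    big_ne (by
      rw [nrm_neg hq, Complex.neg_re]
      exact Real.one_lt_rpow (one_lt_q hq) (by linarith))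
  have n3 : ∀ w : ℂ, w.re < 0 → 1 - (q : ℂ) ^ (w - 1) ≠ 0 := fun w hw =>
    small_ne ((small hq (b := -1) (by rw [hre1]; linarith)).trans_lt (lt1 _ (by norm_num)))
  have n4 : ∀ w : ℂ, w.re < 0 → 1 + (q : ℂ) ^ (w - 1) ≠ 0 := fun w hw =>
    small_ne' ((small hq (b := -1) (by rw [hre1]; linarith)).trans_lt (lt1 _ (by norm_num)))
  have n5 : ∀ w : ℂ, w.re < 0 → 1 - (q : ℂ) ^ (1 / 2 - w) ≠ 0 := fun w hw =>
    big_ne (by
      rw [nrm_neg hq, hre3]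
      exact Real.one_lt_rpow (one_lt_q hq) (by linarith))
  have n6 : ((Real.sqrt q : ℝ) : ℂ) ≠ 0 := by
    have : Real.sqrt q ≠ 0 := Real.sqrt_ne_zero'.2 (by linarith [one_lt_q hq])
    exact_mod_cast this
  refine ⟨fun w => (1 + (q : ℂ) ^ (w - 3 / 2))⁻¹ * (2⁻¹ * ((1 - (q : ℂ) ^ (-w))⁻¹ *
    (((1 - (q : ℂ) ^ (w - 1)) ^ 2 * (1 + (q : ℂ) ^ (w - 1))) * (1 - (q : ℂ) ^ (1 / 2 - w))⁻¹))),
    ?_, ?_, ?_⟩
  · have d1 : ∀ w : ℂ, DifferentiableAt ℂ (fun w : ℂ => (q : ℂ) ^ (w - 3 / 2)) w := fun w =>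
      (differentiableAt_id.sub (differentiableAt_const _)).const_cpow (Or.inl hq0)
    have d2 : ∀ w : ℂ, DifferentiableAt ℂ (fun w : ℂ => (q : ℂ) ^ (-w)) w := fun w =>
      differentiableAt_id.neg.const_cpow (Or.inl hq0)
    have d3 : ∀ w : ℂ, DifferentiableAt ℂ (fun w : ℂ => (q : ℂ) ^ (w - 1)) w := fun w =>
      (differentiableAt_id.sub (differentiableAt_const _)).const_cpow (Or.inl hq0)
    have d4 : ∀ w : ℂ, DifferentiableAt ℂ (fun w : ℂ => (q : ℂ) ^ (1 / 2 - w)) w := fun w =>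
      ((differentiableAt_const _).sub differentiableAt_id).const_cpow (Or.inl hq0)
    intro w hw
    have hw' : w.re < 0 := hw
    refine DifferentiableAt.differentiableWithinAt ?_
    refine DifferentiableAt.mul (((d1 w).const_add 1).fun_inv (n1 w hw')) ?_
    refine DifferentiableAt.const_mul ?_ _
    refine DifferentiableAt.mul (((d2 w).const_sub 1).fun_inv (n2 w hw')) ?_
    refine DifferentiableAt.mul ?_ (((d4 w).const_sub 1).fun_inv (n5 w hw'))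
    exact (((d3 w).const_sub 1).pow 2).mul ((d3 w).const_add 1)
  · intro a b hb
    have q1 : (q : ℝ) ^ (b - 3 / 2) < 1 := lt1 _ (by linarith)
    have q2 : 1 < (q : ℝ) ^ (-b) := Real.one_lt_rpow (one_lt_q hq) (by linarith)
    have q3 : 1 < (q : ℝ) ^ (1 / 2 - b) := Real.one_lt_rpow (one_lt_q hq) (by linarith)
    have p1 : 0 ≤ (1 - (q : ℝ) ^ (b - 3 / 2))⁻¹ := inv_nonneg.2 (by linarith)
    have p2 : 0 ≤ ((q : ℝ) ^ (-b) - 1)⁻¹ := inv_nonneg.2 (by linarith)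
    have p3 : 0 ≤ ((q : ℝ) ^ (1 / 2 - b) - 1)⁻¹ := inv_nonneg.2 (by linarith)
    refine ⟨0, (1 - (q : ℝ) ^ (b - 3 / 2))⁻¹ * (1 * (((q : ℝ) ^ (-b) - 1)⁻¹ *
      ((2 ^ 2 * 2) * ((q : ℝ) ^ (1 / 2 - b) - 1)⁻¹))), le_rfl,
      mul_nonneg p1 (mul_nonneg zero_le_one (mul_nonneg p2 (mul_nonneg (by norm_num) p3))),
      fun w h1 h2 => ?_⟩
    rw [Real.rpow_zero, mul_one]
    have m1 : ‖(1 + (q : ℂ) ^ (w - 3 / 2))⁻¹‖ ≤ (1 - (q : ℝ) ^ (b - 3 / 2))⁻¹ :=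
      inv_small q1 (small hq (by rw [hre2]; linarith))
    have m2 : ‖(1 - (q : ℂ) ^ (-w))⁻¹‖ ≤ ((q : ℝ) ^ (-b) - 1)⁻¹ :=
      inv_big q2 (big hq (by rw [Complex.neg_re]; linarith))
    have m3 : ‖(1 - (q : ℂ) ^ (1 / 2 - w))⁻¹‖ ≤ ((q : ℝ) ^ (1 / 2 - b) - 1)⁻¹ :=
      inv_big q3 (big hq (by rw [hre3]; linarith))
    have m4 : ‖(q : ℂ) ^ (w - 1)‖ ≤ 1 :=
      (small hq (b := 0) (by rw [hre1]; linarith)).trans (by rw [Real.rpow_zero])
    have m5 : ‖1 - (q : ℂ) ^ (w - 1)‖ ≤ 2 := by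
      refine (norm_sub_le _ _).trans ?_
      rw [norm_one]
      linarith
    have m6 : ‖1 + (q : ℂ) ^ (w - 1)‖ ≤ 2 := by
      refine (norm_add_le _ _).trans ?_
      rw [norm_one]
      linarith
    have m7 : ‖(1 - (q : ℂ) ^ (w - 1)) ^ 2 * (1 + (q : ℂ) ^ (w - 1))‖ ≤ 2 ^ 2 * 2 := by
      rw [norm_mul, norm_pow]
      exact mul_le_mul (pow_le_pow_left₀ (norm_nonneg _) m5 2) m6 (norm_nonneg _) (by norm_num)
    have m8 : ‖(2 : ℂ)⁻¹‖ ≤ 1 := by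
      rw [norm_inv]
      norm_num
    rw [norm_mul]
    refine mul_le_mul m1 ?_ (norm_nonneg _) p1
    rw [norm_mul]
    refine mul_le_mul m8 ?_ (norm_nonneg _) zero_le_one
    rw [norm_mul]
    refine mul_le_mul m2 ?_ (norm_nonneg _) p2
    rw [norm_mul]
    exact mul_le_mul m7 m3 (norm_nonneg _) (by norm_num)
  · intro w hw
    have k1 := n1 w hw
    have k2 := n2 w hw
    have k3 := n3 w hw
    have k4 := n4 w hw
    have k5 := n5 w hw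
    unfold ph
    beta_reduce
    generalize 1 + (q : ℂ) ^ (w - 3 / 2) = z1 at *
    generalize 1 - (q : ℂ) ^ (-w) = z2 at *
    generalize 1 - (q : ℂ) ^ (w - 1) = z3 at *
    generalize 1 + (q : ℂ) ^ (w - 1) = z4 at *
    generalize 1 - (q : ℂ) ^ (1 / 2 - w) = z5 at *
    generalize ((Real.sqrt q : ℝ) : ℂ) = z6 at *
    field_simp

end Pool.Agent.LD
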