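import Pool.Agent.QD.In.Ex

/-!
# LD/I-Good: a good set of places over primes different from `p0`

PLAN. Copy the proof of `exists_good` (QD/In/Ex.lean), with the only change that the representatives
`I C` of the ideal classes are chosen with norm prime to `p0`; then `N = ∏ absNorm (I C)` is prime to
`p0` and `p0 ∉ T1 = T ∪ N.primeFactors`.  `class_coprime`: let `C⁻¹ = [I]`, `I` an integral nonzero ideal.
Choose `x ∈ I`, `x ≠ 0`, with `ord_v x = ord_v I` for every prime `v` over `p0`: for the finitely many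
primes `v` dividing `(p0)`: by the Chinese remainder theorem (`IsDedekindDomain.exists_forall_sub_mem_ideal`
or `Ideal.exists_..`), or shorter: the ideal `I` is not contained in `⋃ I * v` (`v` over `p0`; CRT: for each
`v` pick `y_v ∈ I \ I v` and `z_v ∈ ∏_{v' ≠ v} v'`, `z_v ∉ v`; `x = ∑ y_v z_v`).  Then `(x) = I * J` (Mathlib:
`Ideal.dvd_span_singleton`), `J` is prime to all `v` over `p0` (if `v ∣ J` then `x ∈ I v`), `[J] = [I]⁻¹ = C` and
`absNorm J` is prime to `p0` (if `p0 ∣ absNorm J` then some prime factor of `J` contains `p0`: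
`Ideal.absNorm` multiplicative, `Ideal.absNorm_mem`, or `J` and `(p0)` are coprime).
-/

namespace Pool.Agent.LD

open NumberField IsDedekindDomain Pool.Agent.HWR Pool.Agent.QD Pool.Agent.QD.In

private theorem ex_prime_mem {K : Type} [Field K] [NumberField K]
    (v : HeightOneSpectrum (𝓞 K)) (n : ℕ) :
    n ≠ 0 → ((n : ℕ) : 𝓞 K) ∈ v.asIdeal →
      ∃ p : ℕ, p.Prime ∧ p ∣ n ∧ ((p : ℕ) : 𝓞 K) ∈ v.asIdeal := by
  induction n using induction_on_primes with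
  | zero => exact fun h => absurd rfl h
  | one =>
    intro _ h
    exfalso
    rw [Nat.cast_one] at h
    exact v.isPrime.ne_top ((Ideal.eq_top_iff_one _).2 h)
  | prime_mul p a hp ih =>
    intro h1 h2
    rw [Nat.cast_mul] at h2
    rcases v.isPrime.mem_or_mem h2 with h3 | h3
    · exact ⟨p, hp, dvd_mul_right p a, h3⟩
    · obtain ⟨q, hq1, hq2, hq3⟩ := ih (fun h => h1 (by rw [h, mul_zero])) h3
      exact ⟨q, hq1, hq2.mul_left p, hq3⟩

private theorem not_dvd_norm {K : Type} [Field K] [NumberField K] {p0 : ℕ} (hp0 : p0.Prime)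
    {J : Ideal (𝓞 K)} (hJ0 : J ≠ ⊥) (hJ : Ideal.span {(p0 : 𝓞 K)} ⊔ J = ⊤) :
    ¬ p0 ∣ Ideal.absNorm J := by
  intro hdvd
  haveI : Fact p0.Prime := ⟨hp0⟩
  haveI : Finite (𝓞 K ⧸ J) := Ideal.finiteQuotientOfFreeOfNeBot J hJ0
  have hcard : p0 ∣ Nat.card (𝓞 K ⧸ J) := by
    have : Ideal.absNorm J = Nat.card (𝓞 K ⧸ J) := rfl
    rw [← this]
    exact hdvd
  obtain ⟨x, hx⟩ := exists_prime_addOrderOf_dvd_card' p0 hcard
  have h1 : p0 • x = 0 := by
    rw [← hx]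
    exact addOrderOf_nsmul_eq_zero x
  have h2 : (1 : 𝓞 K) ∈ Ideal.span {(p0 : 𝓞 K)} ⊔ J := by
    rw [hJ]
    exact Submodule.mem_top
  obtain ⟨y, hy, z, hz, hyz⟩ := Submodule.mem_sup.1 h2
  obtain ⟨w, hw⟩ := Ideal.mem_span_singleton.1 hy
  have h3 : (Ideal.Quotient.mk J (p0 : 𝓞 K)) * Ideal.Quotient.mk J w = 1 := by
    have h4 := congrArg (Ideal.Quotient.mk J) hyz
    rw [map_add, Ideal.Quotient.eq_zero_iff_mem.2 hz, add_zero, hw, map_mul, map_one] at h4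
    exact h4
  have h5 : x = 0 := by
    calc x = 1 * x := (one_mul x).symm
      _ = Ideal.Quotient.mk J w * (p0 • x) := by
        rw [← h3, nsmul_eq_mul, map_natCast]
        ring
      _ = 0 := by rw [h1, mul_zero]
  rw [h5, addOrderOf_zero] at hx
  exact hp0.one_lt.ne hx

theorem class_coprime (K : Type) [Field K] [NumberField K] (p0 : ℕ) (hp0 : p0.Prime)
    (C : ClassGroup (𝓞 K)) : ∃ J : nonZeroDivisors (Ideal (𝓞 K)),
      ClassGroup.mk0 J = C ∧ ¬ p0 ∣ Ideal.absNorm (J : Ideal (𝓞 K)) := by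
  obtain ⟨I, hI⟩ := ClassGroup.mk0_surjective (R := 𝓞 K) C⁻¹
  have hI0 : (I : Ideal (𝓞 K)) ≠ 0 := nonZeroDivisors.coe_ne_zero I
  have hp : (p0 : 𝓞 K) ≠ 0 := by
    exact_mod_cast hp0.ne_zero
  have hpI : Ideal.span {(p0 : 𝓞 K)} * (I : Ideal (𝓞 K)) ≠ 0 := by
    refine mul_ne_zero ?_ hI0
    rw [Ne, Ideal.zero_eq_bot, Ideal.span_singleton_eq_bot]
    exact hp
  obtain ⟨a, ha⟩ := IsDedekindDomain.exists_sup_span_eq
    (Ideal.mul_le_right : Ideal.span {(p0 : 𝓞 K)} * (I : Ideal (𝓞 K)) ≤ I) hpI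
  have haI : Ideal.span {a} ≤ (I : Ideal (𝓞 K)) := by
    rw [← ha]
    exact le_sup_right
  obtain ⟨J, hJ⟩ := Ideal.dvd_iff_le.2 haI
  have h1 : (I : Ideal (𝓞 K)) * (Ideal.span {(p0 : 𝓞 K)} ⊔ J) = (I : Ideal (𝓞 K)) * ⊤ := by
    rw [Ideal.mul_sup, Ideal.mul_top, ← hJ, mul_comm (I : Ideal (𝓞 K))]
    exact ha
  have h2 : Ideal.span {(p0 : 𝓞 K)} ⊔ J = ⊤ := mul_left_cancel₀ hI0 h1
  have hJ0 : J ≠ ⊥ := by
    intro h
    rw [h, sup_bot_eq, Ideal.span_singleton_eq_top] at h2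
    have h4 : IsUnit (Ideal.absNorm (Ideal.span {(p0 : 𝓞 K)})) := by
      rw [(Ideal.span_singleton_eq_top).2 h2, Ideal.absNorm_top]
      exact isUnit_one
    rw [Ideal.absNorm_span_singleton] at h4
    have h5 : Algebra.norm ℤ (p0 : 𝓞 K) = (p0 : ℤ) ^ Module.finrank ℤ (𝓞 K) := by
      have := Algebra.norm_algebraMap (R := ℤ) (S := 𝓞 K) (p0 : ℤ)
      simpa using this
    rw [h5, Int.natAbs_pow, Int.natAbs_natCast, isUnit_pow_iff, Nat.isUnit_iff] at h4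
    · exact hp0.one_lt.ne' h4
    · exact Module.finrank_pos.ne'
  refine ⟨⟨J, mem_nonZeroDivisors_iff_ne_zero.2 hJ0⟩, ?_, not_dvd_norm hp0 hJ0 h2⟩
  have ha0 : a ≠ 0 := by
    intro h
    rw [h, Ideal.span_singleton_eq_bot.2 rfl] at hJ
    exact mul_ne_zero hI0 hJ0 hJ.symm
  have h3 : ClassGroup.mk0 I * ClassGroup.mk0 ⟨J, mem_nonZeroDivisors_iff_ne_zero.2 hJ0⟩ = 1 := by
    rw [← map_mul, ClassGroup.mk0_eq_one_iff]
    refine ⟨⟨a, ?_⟩⟩
    exact hJ.symm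
  rw [hI] at h3
  exact (inv_mul_eq_one.1 h3).symm

theorem exists_good' (K : Type) [Field K] [NumberField K] (T : Finset ℕ)
    (hTp : ∀ p ∈ T, p.Prime) (h2 : 2 ∈ T) (p0 : ℕ) (hp0 : p0.Prime) (h0 : p0 ∉ T) :
    ∃ (T1 : Finset ℕ) (S : Finset (HeightOneSpectrum (𝓞 K))), T ⊆ T1 ∧ (∀ p ∈ T1, p.Prime) ∧
      p0 ∉ T1 ∧ OverT T1 S ∧ Good S := by
  classical
  choose I hI hIp using (class_coprime K p0 hp0)
  have hI0 : ∀ C : ClassGroup (𝓞 K), (I C : Ideal (𝓞 K)) ≠ 0 := fun C =>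
    nonZeroDivisors.coe_ne_zero (I C)
  set N : ℕ := ∏ C : ClassGroup (𝓞 K), Ideal.absNorm (I C : Ideal (𝓞 K)) with hN
  have hN0 : N ≠ 0 := by
    rw [hN, Finset.prod_ne_zero_iff]
    intro C _
    rw [Ne, Ideal.absNorm_eq_zero_iff]
    exact hI0 C
  set T1 : Finset ℕ := T ∪ N.primeFactors with hT1
  have hT1p : ∀ p ∈ T1, p.Prime := by
    intro p hp
    rw [hT1, Finset.mem_union] at hp
    rcases hp with hp | hp
    · exact hTp p hp
    · exact Nat.prime_of_mem_primeFactors hp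
  have hp0T : p0 ∉ T1 := by
    rw [hT1, Finset.mem_union, not_or]
    refine ⟨h0, fun h => ?_⟩
    have h1 := Nat.dvd_of_mem_primeFactors h
    rw [hN, hp0.prime.dvd_finsetProd_iff] at h1
    obtain ⟨C, -, hC⟩ := h1
    exact hIp C hC
  have hfin := not_away_finite K T1 hT1p
  have hS : ∀ v : HeightOneSpectrum (𝓞 K), v ∈ hfin.toFinset ↔ ¬ Away K T1 v := by
    intro v
    rw [Set.Finite.mem_toFinset, Set.mem_ofPred_eq]
  refine ⟨T1, hfin.toFinset, Finset.subset_union_left, hT1p, hp0T, hS, ?_, ?_⟩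
  · intro v hv
    rw [hS]
    intro ha
    exact ha 2 (Finset.mem_union_left _ h2) (by exact_mod_cast hv)
  · -- the places outside `S` are principal modulo `S`
    have haway : ∀ v : HeightOneSpectrum (𝓞 K), v ∉ hfin.toFinset →
        ∀ C, ¬ (v.asIdeal ∣ (I C : Ideal (𝓞 K))) := by
      intro v hv C hdvd
      rw [hS, not_not] at hv
      have h3 : ((Ideal.absNorm (I C : Ideal (𝓞 K)) : ℕ) : 𝓞 K) ∈ v.asIdeal :=
        Ideal.le_of_dvd hdvd (Ideal.absNorm_mem _)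
      have h4 : ((N : ℕ) : 𝓞 K) ∈ v.asIdeal := by
        obtain ⟨M, hM⟩ : Ideal.absNorm (I C : Ideal (𝓞 K)) ∣ N :=
          Finset.dvd_prod_of_mem _ (Finset.mem_univ C)
        rw [hM, Nat.cast_mul]
        exact Ideal.mul_mem_right _ _ h3
      obtain ⟨p, hp1, hp2, hp3⟩ := ex_prime_mem v N hN0 h4
      exact hv p (Finset.mem_union_right _ (Nat.mem_primeFactors.2 ⟨hp1, hp2, hN0⟩)) hp3
    intro v hv
    set J : nonZeroDivisors (Ideal (𝓞 K)) :=
      ⟨v.asIdeal, mem_nonZeroDivisors_iff_ne_zero.2 v.ne_bot⟩ with hJ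
    set C := ClassGroup.mk0 J with hC
    have h5 : ClassGroup.mk0 J = ClassGroup.mk0 (I C) := by rw [hI, ← hC]
    rw [ClassGroup.mk0_eq_mk0_iff] at h5
    obtain ⟨α, β, hα, hβ, h6⟩ := h5
    have h7 : Ideal.span {α} * v.asIdeal = Ideal.span {β} * (I C : Ideal (𝓞 K)) := h6
    have hα' : algebraMap (𝓞 K) K α ≠ 0 := by simpa using hα
    have hβ' : algebraMap (𝓞 K) K β ≠ 0 := by simpa using hβ
    set A : Kˣ := Units.mk0 _ hα' with hA
    set B : Kˣ := Units.mk0 _ hβ' with hB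
    have hdA : ∀ (w : HeightOneSpectrum (𝓞 K)) (n : ℕ), (n : ℤ) ≤ ordK w A ↔
        w.asIdeal ^ n ∣ Ideal.span {α} := by
      intro w n
      rw [le_ordK_iff_of_int w A α rfl n, Ideal.dvd_span_singleton]
    have hdB : ∀ (w : HeightOneSpectrum (𝓞 K)) (n : ℕ), (n : ℤ) ≤ ordK w B ↔
        w.asIdeal ^ n ∣ Ideal.span {β} := by
      intro w n
      rw [le_ordK_iff_of_int w B β rfl n, Ideal.dvd_span_singleton]
    have hA0 : ∀ w, 0 ≤ ordK w A := fun w => ordK_nonneg_of_int w A α rfl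
    have hB0 : ∀ w, 0 ≤ ordK w B := fun w => ordK_nonneg_of_int w B β rfl
    have hdBI : ∀ (w : HeightOneSpectrum (𝓞 K)) (n : ℕ), w ∉ hfin.toFinset →
        ((n : ℤ) ≤ ordK w B ↔ w.asIdeal ^ n ∣ Ideal.span {α} * v.asIdeal) := by
      intro w n hw
      rw [hdB, h7]
      exact ⟨fun h => h.mul_right _,
        fun h => w.prime.pow_dvd_of_dvd_mul_right n (haway w hw C) h⟩
    refine ⟨B / A, ?_, ?_⟩
    · rw [ordK_div]
      have h8 : ∀ n : ℕ, (n : ℤ) ≤ ordK v A ↔ ((n + 1 : ℕ) : ℤ) ≤ ordK v B := by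
        intro n
        rw [hdA, hdBI v (n + 1) hv, pow_succ]
        exact (mul_dvd_mul_iff_right v.ne_bot).symm
      obtain ⟨a, ha⟩ := Int.eq_ofNat_of_zero_le (hA0 v)
      obtain ⟨b, hb⟩ := Int.eq_ofNat_of_zero_le (hB0 v)
      have h9 := (h8 a).1 ha.ge
      have h10 : b - 1 ≤ a := by
        rcases Nat.eq_zero_or_pos b with h0 | h0
        · omega
        · have := (h8 (b - 1)).2 (by rw [hb]; push_cast; omega)
          rw [ha] at this
          exact_mod_cast this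
      rw [hb] at h9
      have h11 : a + 1 ≤ b := by exact_mod_cast h9
      rw [ha, hb]
      push_cast
      omega
    · intro w hw hwv
      rw [ordK_div]
      have hnd : ¬ (w.asIdeal ∣ v.asIdeal) := by
        intro h
        apply hwv
        have h12 : v.asIdeal ≤ w.asIdeal := Ideal.le_of_dvd h
        have h13 : v.asIdeal = w.asIdeal := v.isMaximal.eq_of_le w.isPrime.ne_top h12
        exact HeightOneSpectrum.ext h13.symm
      have h8 : ∀ n : ℕ, (n : ℤ) ≤ ordK w A ↔ (n : ℤ) ≤ ordK w B := by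
        intro n
        rw [hdA, hdBI w n hw]
        exact ⟨fun h => h.mul_right _, fun h => w.prime.pow_dvd_of_dvd_mul_right n hnd h⟩
      obtain ⟨a, ha⟩ := Int.eq_ofNat_of_zero_le (hA0 w)
      obtain ⟨b, hb⟩ := Int.eq_ofNat_of_zero_le (hB0 w)
      have h9 := (h8 a).1 ha.ge
      have h10 := (h8 b).2 hb.ge
      rw [hb] at h9
      rw [ha] at h10
      rw [ha, hb]
      have h11 : a ≤ b := by exact_mod_cast h9
      have h12 : b ≤ a := by exact_mod_cast h10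
      omega

/-- version for a place away from `T` -/
theorem exists_good_place (K : Type) [Field K] [NumberField K] (T : Finset ℕ)
    (hTp : ∀ p ∈ T, p.Prime) (h2 : 2 ∈ T) (v0 : HeightOneSpectrum (𝓞 K)) (hv0 : Away K T v0) :
    ∃ (T1 : Finset ℕ) (S : Finset (HeightOneSpectrum (𝓞 K))), T ⊆ T1 ∧ (∀ p ∈ T1, p.Prime) ∧
      OverT T1 S ∧ Good S ∧ v0 ∉ S := by
  obtain ⟨p0, hp0, -, hpv⟩ := ex_prime_mem v0 (Ideal.absNorm v0.asIdeal)
    (by rw [Ne, Ideal.absNorm_eq_zero_iff]; exact v0.ne_bot) (Ideal.absNorm_mem _)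
  have h0 : p0 ∉ T := fun h => hv0 p0 h hpv
  obtain ⟨T1, S, h3, h4, h5, h6, h7⟩ := exists_good' K T hTp h2 p0 hp0 h0
  refine ⟨T1, S, h3, h4, h6, h7, ?_⟩
  rw [h6 v0, not_not]
  intro p hp hpm
  have hne : p ≠ p0 := fun h => h5 (h ▸ hp)
  have hco : Nat.Coprime p p0 := (Nat.coprime_primes (h4 p hp) hp0).2 hne
  have h8 : IsCoprime ((p : ℤ)) (p0 : ℤ) := Nat.isCoprime_iff_coprime.2 hco
  obtain ⟨u, w, huw⟩ := h8
  apply v0.isPrime.ne_top
  rw [Ideal.eq_top_iff_one]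
  have h9 : (u : 𝓞 K) * (p : 𝓞 K) + (w : 𝓞 K) * (p0 : 𝓞 K) = 1 := by
    exact_mod_cast congrArg (fun z : ℤ => (z : 𝓞 K)) huw
  rw [← h9]
  exact v0.asIdeal.add_mem (Ideal.mul_mem_left _ _ hpm) (Ideal.mul_mem_left _ _ hpv)

end Pool.Agent.LD
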