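import Pool.Agent.LD.I.Defs

/-!
# LD/I-Lm: the completed L-function of `K(√x)`, `x` not a local square at `v0`

PLAN.  Copy `QD/In/Lm.lean` (`exists_Lm`, `isLm`) with `H x hx (qf hx').L (qf hx').θ (qf hx').deg (qf hx').sq`
instead of `H (qf hx).L (qf hx).deg`, where `hx' : ¬ IsSquare x` follows from `hx : ¬ LSq v0 x` (`LSq_sq`).
-/

namespace Pool.Agent.LD

open NumberField IsDedekindDomain Pool.Agent.HWR Pool.Agent.QD Pool.Agent.QD.In

variable {K : Type} [Field K] [NumberField K] {T : Finset ℕ} (D : LocData T)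

private theorem exists_Lm_aux (hT : ∀ p : ℕ, p.Prime → p < 101 → p ∈ T) (a : ℕ → ℝ)
    (ha : ∀ q : ℕ, |a q| ≤ 2 * Real.sqrt q) {v0 : HeightOneSpectrum (𝓞 K)} (H : HWq D a v0)
    (x : Kˣ) (hx0 : ¬ LSq v0 x) (hx : ¬ IsSquare x) : ∃ Λ, IsLm D a x Λ := by
  obtain ⟨Λ, h1, h2, h3, h4⟩ := H x hx0 (qf hx).L (qf hx).θ (qf hx).deg (qf hx).sq
  have hw : D.w (qf hx).L = wx D x := by
    unfold LocData.w wx nr nc sgx
    simp only [dif_neg hx]
  have hA : D.A (qf hx).L = dd x ^ 2 * cdx D x := by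
    unfold LocData.A dd cdx
    simp only [dif_neg hx, sq_abs]
  have hf : Module.finrank ℚ (qf hx).L = 2 * Module.finrank ℚ K := by
    rw [← Module.finrank_mul_finrank ℚ K (qf hx).L, (qf hx).deg, mul_comm]
  have hpl : ∀ s : ℂ, D.pl (qf hx).L s = plx D x s := by
    intro s
    unfold plx
    rw [dif_neg hx]
  have htt : ∀ v : HeightOneSpectrum (𝓞 K), ty K (qf hx).L v = tt x v := by
    intro v
    unfold tt
    rw [dif_neg hx]
  refine ⟨Λ, h1, h2, ?_, ?_⟩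
  · intro s
    rw [← hw]
    exact h3 s
  · intro s hs
    rw [h4 s hs, LocData.Lam, hA, hf, hpl, LT_quad' (qf hx).L (qf hx).deg ha T hT hs]
    simp only [htt]

theorem isLm' (hT : ∀ p : ℕ, p.Prime → p < 101 → p ∈ T) (a : ℕ → ℝ)
    (ha : ∀ q : ℕ, |a q| ≤ 2 * Real.sqrt q) {v0 : HeightOneSpectrum (𝓞 K)} (H : HWq D a v0)
    (x : Kˣ) (hx : ¬ LSq v0 x) : IsLm D a x (Lm D a x) := by
  have hx' : ¬ IsSquare x := by
    rintro ⟨r, hr⟩
    apply hx
    have h1 := N4.LSq_sq v0 r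
    rwa [sq, ← hr] at h1
  exact Classical.epsilon_spec (exists_Lm_aux D hT a ha H x hx hx')

end Pool.Agent.LD
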